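import Mathlib

/-!
# Rotation invariant measures on the dual of `K(i)`: basic definitions

Measures live on the product spaces `A → Circle`; the additive maps are almost everything.
-/

set_option autoImplicit false

noncomputable section

namespace Pool.Agent.MP8b8716R

open MeasureTheory Filter Topology

instance circleMeasurableSpace : MeasurableSpace Circle := borel Circle

instance circleBorelSpace : BorelSpace Circle := ⟨rfl⟩

/-- `ee x = exp (2 π i x)` -/
def ee (x : ℝ) : Circle := Circle.exp (2 * Real.pi * x)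

/-- additive maps to the circle -/
def AddY {A : Type*} [Add A] (y : A → Circle) : Prop := ∀ a b, y (a + b) = y a * y b

/-- `(sh c y) z = y (c z)` -/
def sh {A : Type*} [Mul A] (c : A) (y : A → Circle) : A → Circle := fun z => y (c * z)

/-! ## the Gaussian rationals -/

/-- the Gaussian rationals -/
abbrev QI : Type := QuadraticAlgebra ℚ (-1) 0

instance factQI : Fact (∀ r : ℚ, r ^ 2 ≠ -1 + 0 * r) := ⟨fun r h => by nlinarith [sq_nonneg r]⟩

instance countableQI : Countable QI := Function.Injective.countable
  (QuadraticAlgebra.equivProd (-1 : ℚ) 0).injective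

/-- the embedding into the complex numbers -/
def toC : QI →+* ℂ where
  toFun z := (z.re : ℂ) + (z.im : ℂ) * Complex.I
  map_one' := by
    show ((1 : QI).re : ℂ) + ((1 : QI).im : ℂ) * Complex.I = 1
    rw [QuadraticAlgebra.re_one, QuadraticAlgebra.im_one]
    simp
  map_zero' := by simp
  map_add' a b := by simp; ring
  map_mul' a b := by
    have h := Complex.I_mul_I
    simp only [QuadraticAlgebra.re_mul, QuadraticAlgebra.im_mul]
    push_cast
    linear_combination (-(a.im : ℂ) * b.im) * h

/-- `2 - i` -/
def pi0 : QI := ⟨2, -1⟩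

/-- `2 + i` -/
def pi1 : QI := ⟨2, 1⟩

/-- Gaussian integers -/
def IsG (z : QI) : Prop := ∃ a b : ℤ, z = ⟨a, b⟩

/-- the ring `Z[i][1 / (2 - i)]` -/
def Rpi (u : QI) : Prop := ∃ n : ℕ, IsG (pi0 ^ n * u)

/-- `y` is continuous times torsion on the ring `Z[i][1 / (2 - i)]` -/
def InW1 (y : QI → Circle) : Prop :=
  ∃ m : ℕ, 0 < m ∧ ∃ ξ : ℂ, ∀ u, Rpi u → y (m * u) = ee ((toC u * ξ).re)

end Pool.Agent.MP8b8716R
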