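import Mathlib
import Pool.Agent.Lib.MP_8b8716_co.Defs

/-!
# The plane over the constructible numbers: definitions
-/

set_option autoImplicit false

noncomputable section

namespace Pool.Agent.MP8b8716R

open MeasureTheory Filter Topology
open Pool.Agent.MP8b8716 (unitDistanceGraph)

/-- `K` contains the square roots of its nonnegative elements. -/
def SqrtClosed (K : Subfield ℝ) : Prop := ∀ x ∈ K, 0 ≤ x → √x ∈ K

/-- The constructible real numbers: the least field of real numbers which contains the square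
roots of its nonnegative elements. -/
def K2 : Subfield ℝ := sInf {K | SqrtClosed K}

/-- The complex numbers with coordinates in `K`. -/
def EE (K : Subfield ℝ) : Subfield ℂ where
  carrier := {z | z.re ∈ K ∧ z.im ∈ K}
  mul_mem' := by
    rintro a b ⟨h1, h2⟩ ⟨h3, h4⟩
    exact ⟨by rw [Complex.mul_re]; exact K.sub_mem (K.mul_mem h1 h3) (K.mul_mem h2 h4),
      by rw [Complex.mul_im]; exact K.add_mem (K.mul_mem h1 h4) (K.mul_mem h2 h3)⟩
  one_mem' := ⟨by simp, by simp⟩
  add_mem' := by
    rintro a b ⟨h1, h2⟩ ⟨h3, h4⟩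
    exact ⟨by rw [Complex.add_re]; exact K.add_mem h1 h3,
      by rw [Complex.add_im]; exact K.add_mem h2 h4⟩
  zero_mem' := ⟨by simp, by simp⟩
  neg_mem' := by
    rintro a ⟨h1, h2⟩
    exact ⟨by rw [Complex.neg_re]; exact K.neg_mem h1, by rw [Complex.neg_im]; exact K.neg_mem h2⟩
  inv_mem' := by
    rintro a ⟨h1, h2⟩
    have hn : Complex.normSq a ∈ K := by
      rw [Complex.normSq_apply]
      exact K.add_mem (K.mul_mem h1 h1) (K.mul_mem h2 h2)
    exact ⟨by rw [Complex.inv_re]; exact K.div_mem h1 hn,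
      by rw [Complex.inv_im]; exact K.div_mem (K.neg_mem h2) hn⟩

/-- A positive definite function on an abelian group. -/
def PD {E : Type*} [AddCommGroup E] (f : E → ℂ) : Prop :=
  ∀ (s : Finset E) (a : E → ℂ),
    0 ≤ (∑ z ∈ s, ∑ w ∈ s, a z * (starRingEnd ℂ) (a w) * f (z - w)).re ∧
      (∑ z ∈ s, ∑ w ∈ s, a z * (starRingEnd ℂ) (a w) * f (z - w)).im = 0

/-- The conclusion of the rigidity theorem for the function `f`. -/
def Decomp (K : Subfield ℝ) (f : EE K → ℂ) : Prop :=
  ∃ (a : ℝ) (ν : Measure ℂ), 0 ≤ a ∧ IsFiniteMeasure ν ∧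
    ∀ z : EE K, f z = (if z = 0 then (a : ℂ) else 0) +
      ∫ ξ, Complex.exp (2 * Real.pi * Complex.I * ((((z : ℂ) * ξ).re : ℝ) : ℂ)) ∂ν

/-- The rigidity theorem for `K`. -/
def Rigid (K : Subfield ℝ) : Prop :=
  ∀ f : EE K → ℂ, PD f → (∀ c : EE K, ‖(c : ℂ)‖ = 1 → ∀ z, f (c * z) = f z) → Decomp K f

/-- The unit-distance graph on the complex numbers with coordinates in `K`. -/
def gE (K : Subfield ℝ) : SimpleGraph (EE K) where
  Adj z w := ‖(z : ℂ) - w‖ = 1
  symm := ⟨fun z w h => by rw [norm_sub_rev]; exact h⟩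
  loopless := ⟨fun z h => by simp at h⟩

/-- Colourings of the plane over `K`. -/
abbrev Col (K : Subfield ℝ) (k : ℕ) : Type := EE K → Fin k

/-- translation of colourings -/
def shift {K : Subfield ℝ} {k : ℕ} (z : EE K) (ω : Col K k) : Col K k := fun w => ω (z + w)

/-- rotation of colourings -/
def rot {K : Subfield ℝ} {k : ℕ} (c : EE K) (ω : Col K k) : Col K k := fun w => ω (c * w)

/-- An invariant random proper colouring. -/
structure IsRC {K : Subfield ℝ} {k : ℕ} (μ : Measure (Col K k)) : Prop where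
  prob : IsProbabilityMeasure μ
  shift : ∀ z : EE K, μ.map (shift z) = μ
  rot : ∀ c : EE K, ‖(c : ℂ)‖ = 1 → μ.map (rot c) = μ
  proper : ∀ z w : EE K, ‖(z : ℂ) - w‖ = 1 → ∀ᵐ ω ∂μ, ω z ≠ ω w

/-- The correlation function of the colour `i`. -/
def corr {K : Subfield ℝ} {k : ℕ} (μ : Measure (Col K k)) (i : Fin k) (z : EE K) : ℂ :=
  ((μ.real {ω | ω 0 = i ∧ ω z = i} : ℝ) : ℂ)

/-- The sets `A i` are measurable, pairwise disjoint, cover almost all of the plane and contain no
two points at distance one. -/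
structure MeasCol {k : ℕ} (A : Fin k → Set ℂ) : Prop where
  meas : ∀ i, MeasurableSet (A i)
  disj : Pairwise fun i j => Disjoint (A i) (A j)
  cover : volume (⋃ i, A i)ᶜ = 0
  free : ∀ i, ∀ x ∈ A i, ∀ y ∈ A i, dist x y ≠ 1

/-! ### characters -/

/-- the Borel sets of the circle -/
instance instMeasurableSpaceCircle : MeasurableSpace Circle := borel Circle

instance instBorelSpaceCircle : BorelSpace Circle := ⟨rfl⟩

/-- Functions on `EE K` with values in the circle; the characters are the additive ones. -/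
abbrev Ch (K : Subfield ℝ) : Type := EE K → Circle

/-- the action of multiplication by `c` -/
def Rd {K : Subfield ℝ} (c : EE K) (y : Ch K) : Ch K := fun z => y (c * z)

/-- A finite measure on the characters which is invariant under the unit vectors. -/
structure Inv (K : Subfield ℝ) (s : Measure (Ch K)) : Prop where
  fin : IsFiniteMeasure s
  add : ∀ᵐ y ∂s, ∀ a b : EE K, y (a + b) = y a * y b
  rot : ∀ c : EE K, ‖(c : ℂ)‖ = 1 → s.map (Rd c) = s

/-- the continuous character with parameter `ξ` -/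
def chr (K : Subfield ℝ) (ξ : ℂ) : Ch K := fun z => Circle.exp (2 * Real.pi * ((z : ℂ) * ξ).re)

/-- continuous characters -/
def Cont {K : Subfield ℝ} (y : Ch K) : Prop := ∃ ξ : ℂ, y = chr K ξ

end Pool.Agent.MP8b8716R
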