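import Mathlib
import Pool.Agent.Lib.MP_8b8716_co_RIG.TDefs

/-!
# Decomposition of the Bochner measure
-/

set_option autoImplicit false

noncomputable section

namespace Pool.Agent.MP8b8716R

open MeasureTheory Filter Topology
open Pool.Agent.MP8b8716 (unitDistanceGraph)

namespace Decomp

theorem chr_cont (K : Subfield ℝ) : Continuous (chr K) := by
  refine continuous_pi fun z => ?_
  unfold chr
  fun_prop

theorem exp_inj {t : ℝ} (h : ∀ q : ℚ, Circle.exp (2 * Real.pi * ((q : ℝ) * t)) = 1) : t = 0 := by
  by_contra ht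
  -- choose `q` with `q * t` in `(0, 1)`
  obtain ⟨q, hq1, hq2⟩ : ∃ q : ℚ, 0 < (q : ℝ) * t ∧ (q : ℝ) * t < 1 := by
    rcases lt_or_gt_of_ne ht with h0 | h0
    · have h1 : 1 / t < 0 := div_neg_of_pos_of_neg one_pos h0
      obtain ⟨q, hq1, hq2⟩ := exists_rat_btwn h1
      refine ⟨q, mul_pos_of_neg_of_neg hq2 h0, ?_⟩
      have := mul_lt_mul_of_neg_right hq1 h0
      rwa [one_div, inv_mul_cancel₀ ht] at this
    · have h1 : 0 < 1 / t := div_pos one_pos h0
      obtain ⟨q, hq1, hq2⟩ := exists_rat_btwn h1
      refine ⟨q, mul_pos hq1 h0, ?_⟩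
      have := mul_lt_mul_of_pos_right hq2 h0
      rwa [one_div, inv_mul_cancel₀ ht] at this
  have h2 := h q
  rw [Circle.exp_eq_one] at h2
  obtain ⟨n, hn⟩ := h2
  have hpi : (0 : ℝ) < 2 * Real.pi := by positivity
  have h3 : (q : ℝ) * t = n := by
    have : 2 * Real.pi * ((q : ℝ) * t) = 2 * Real.pi * n := by rw [hn]; ring
    exact mul_left_cancel₀ hpi.ne' this
  rw [h3] at hq1 hq2
  have h4 : (0 : ℤ) < n := by exact_mod_cast hq1
  have h5 : n < (1 : ℤ) := by exact_mod_cast hq2
  omega

theorem chr_inj (K : Subfield ℝ) : Function.Injective (chr K) := by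
  intro ξ η h
  have key : ∀ z : EE K, Circle.exp (2 * Real.pi * ((z : ℂ) * (ξ - η)).re) = 1 := by
    intro z
    have h1 := congrFun h z
    unfold chr at h1
    have h2 : 2 * Real.pi * ((z : ℂ) * (ξ - η)).re =
        2 * Real.pi * ((z : ℂ) * ξ).re - 2 * Real.pi * ((z : ℂ) * η).re := by
      rw [mul_sub, Complex.sub_re]; ring
    rw [h2, Circle.exp_sub, h1, div_self']
  have hre : (ξ - η).re = 0 := by
    apply exp_inj
    intro q
    have h1 := key ⟨(q : ℂ), by
      constructor
      · show ((q : ℂ)).re ∈ K
        rw [Complex.ratCast_re]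
        exact SubfieldClass.ratCast_mem K q
      · show ((q : ℂ)).im ∈ K
        rw [Complex.ratCast_im]
        exact K.zero_mem⟩
    have h2 : (((q : ℂ)) * (ξ - η)).re = (q : ℝ) * (ξ - η).re := by
      rw [Complex.mul_re, Complex.ratCast_re, Complex.ratCast_im]; ring
    rw [← h2]
    exact h1
  have him : (ξ - η).im = 0 := by
    have h0 : -(ξ - η).im = 0 := by
      apply exp_inj
      intro q
      have h1 := key ⟨(q : ℂ) * Complex.I, by
        constructor
        · show ((q : ℂ) * Complex.I).re ∈ K
          have : ((q : ℂ) * Complex.I).re = 0 := by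
            rw [Complex.mul_re, Complex.ratCast_re, Complex.ratCast_im]; simp
          rw [this]
          exact K.zero_mem
        · show ((q : ℂ) * Complex.I).im ∈ K
          have : ((q : ℂ) * Complex.I).im = q := by
            rw [Complex.mul_im, Complex.ratCast_re, Complex.ratCast_im]; simp
          rw [this]
          exact SubfieldClass.ratCast_mem K q⟩
      have h2 : (((q : ℂ) * Complex.I) * (ξ - η)).re = (q : ℝ) * (-(ξ - η).im) := by
        rw [Complex.mul_re, Complex.mul_re, Complex.mul_im, Complex.ratCast_re,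
          Complex.ratCast_im]
        simp
        ring
      rw [← h2]
      exact h1
    linarith
  have : ξ - η = 0 := Complex.ext hre him
  exact sub_eq_zero.mp this

theorem coe_cont : Continuous (fun x : Circle => (x : ℂ)) := continuous_subtype_val

theorem sc : SecondCountableTopology Circle :=
  inferInstanceAs (SecondCountableTopology (Metric.sphere (0 : ℂ) 1))

theorem chr_emb (K : Subfield ℝ) [Countable (EE K)] : MeasurableEmbedding (chr K) := by
  have := sc
  exact (chr_cont K).measurableEmbedding (chr_inj K)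

theorem set_eq (K : Subfield ℝ) : {y : Ch K | Cont y} = Set.range (chr K) := by
  ext y
  constructor
  · rintro ⟨ξ, h⟩
    exact ⟨ξ, h.symm⟩
  · rintro ⟨ξ, h⟩
    exact ⟨ξ, h.symm⟩

end Decomp

theorem cont_measurable {K : Subfield ℝ} [Countable (EE K)] :
    MeasurableSet {y : Ch K | Cont y} := by
  rw [Decomp.set_eq]
  exact (Decomp.chr_emb K).measurableSet_range

theorem decomp_of_inv {K : Subfield ℝ} [Countable (EE K)] {s : Measure (Ch K)} (hs : Inv K s)
    (h : ∀ z : EE K, z ≠ 0 → ∫ y in {y : Ch K | Cont y}ᶜ, ((y z : Circle) : ℂ) ∂s = 0) :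
    Decomp K fun z => ∫ y, ((y z : Circle) : ℂ) ∂s := by
  have := hs.fin
  have := Decomp.sc
  have hm : MeasurableSet {y : Ch K | Cont y} := cont_measurable
  have hE := Decomp.chr_emb K
  refine ⟨(s {y : Ch K | Cont y}ᶜ).toReal, s.comap (chr K), ENNReal.toReal_nonneg, ?_, ?_⟩
  · constructor
    rw [hE.comap_apply]
    exact measure_lt_top _ _
  intro z
  have hint : Integrable (fun y : Ch K => ((y z : Circle) : ℂ)) s := by
    refine Integrable.of_bound (C := 1) ?_ ?_
    · exact (Decomp.coe_cont.comp (continuous_apply z)).measurable.aestronglyMeasurable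
    · exact Filter.Eventually.of_forall fun y => (Circle.norm_coe _).le
  show ∫ y, ((y z : Circle) : ℂ) ∂s = _
  rw [← integral_add_compl hm hint, add_comm]
  congr 1
  · by_cases hz : z = 0
    · rw [if_pos hz]
      have h1 : ∀ᵐ y ∂s, ((y z : Circle) : ℂ) = 1 := by
        filter_upwards [hs.add] with y hy
        have h2 := hy 0 0
        rw [add_zero] at h2
        rw [hz]
        have h3 : y 0 = 1 := by
          have := left_eq_mul.mp h2
          exact this
        rw [h3, Circle.coe_one]
      rw [setIntegral_congr_ae (g := fun _ => (1 : ℂ)) hm.compl]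
      · rw [setIntegral_const, Complex.real_smul, mul_one]
        rfl
      · filter_upwards [h1] with y hy _
        exact hy
    · rw [if_neg hz]
      exact h z hz
  · rw [Decomp.set_eq, ← hE.map_comap, hE.integral_map]
    refine integral_congr_ae (Filter.Eventually.of_forall fun ξ => ?_)
    show ((Circle.exp (2 * Real.pi * ((z : ℂ) * ξ).re) : Circle) : ℂ) = _
    rw [Circle.coe_exp]
    congr 1
    push_cast
    ring

end Pool.Agent.MP8b8716R
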