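import Mathlib

/-!
# MP_8b8716_co, project RIG, module BB: Foelner sets in abelian groups

The sums of at most `n` copies of each element of `S` grow polynomially, so some step of the growth
is small.
-/

set_option autoImplicit false

noncomputable section

open MeasureTheory Filter Topology

namespace Pool.Agent.MP8b8716R

namespace BB

variable {E : Type} [AddCommGroup E] [DecidableEq E]

/-- all sums `∑ s ∈ S, c s • s` with coefficients in `{0, ..., n}` -/
def ball (S : Finset E) (n : ℕ) : Finset E :=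
  (Fintype.piFinset fun _ : S => Finset.range (n + 1)).image
    fun c : S → ℕ => ∑ s : S, c s • (s : E)

theorem mem_ball {S : Finset E} {n : ℕ} {a : E} :
    a ∈ ball S n ↔ ∃ c : S → ℕ, (∀ s, c s < n + 1) ∧ ∑ s : S, c s • (s : E) = a := by
  simp [ball, Fintype.mem_piFinset]

theorem card_ball (S : Finset E) (n : ℕ) : (ball S n).card ≤ (n + 1) ^ S.card := by
  refine (Finset.card_image_le).trans ?_
  rw [Fintype.card_piFinset]
  simp

theorem ball_nonempty (S : Finset E) (n : ℕ) : (ball S n).Nonempty :=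
  ⟨0, mem_ball.2 ⟨fun _ => 0, fun _ => Nat.succ_pos n, by simp⟩⟩

theorem ball_subset (S : Finset E) (n : ℕ) : ball S n ⊆ ball S (n + 1) := by
  intro a ha
  obtain ⟨c, hc, h⟩ := mem_ball.1 ha
  exact mem_ball.2 ⟨c, fun s => (hc s).trans (Nat.lt_succ_self _), h⟩

theorem ball_add {S : Finset E} {n : ℕ} {a u : E} (ha : a ∈ ball S n) (hu : u ∈ S) :
    a + u ∈ ball S (n + 1) := by
  obtain ⟨c, hc, h⟩ := mem_ball.1 ha
  refine mem_ball.2 ⟨fun s => c s + if s = ⟨u, hu⟩ then 1 else 0, fun s => ?_, ?_⟩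
  · have := hc s
    dsimp only
    split_ifs <;> omega
  · simp only [add_smul, Finset.sum_add_distrib, h, ite_smul, one_smul, zero_smul]
    rw [Finset.sum_ite_eq' Finset.univ (⟨u, hu⟩ : S) (fun s : S => (s : E))]
    simp

theorem growth (S : Finset E) {ε : ℝ} (hε : 0 < ε) :
    ∃ n : ℕ, ((ball S (n + 1)).card : ℝ) ≤ (1 + ε) * (ball S n).card := by
  by_contra hcon
  simp only [not_exists, not_le] at hcon
  have h1 : ∀ n : ℕ, (1 + ε) ^ n ≤ ((ball S n).card : ℝ) := by
    intro n
    induction n with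
    | zero =>
        have : 1 ≤ (ball S 0).card := (ball_nonempty S 0).card_pos
        simpa using this
    | succ n ih =>
        rw [pow_succ, mul_comm]
        exact (mul_le_mul_of_nonneg_left ih (by linarith)).trans (hcon n).le
  have h2 := tendsto_pow_const_div_const_pow_of_one_lt S.card (show (1 : ℝ) < 1 + ε by linarith)
  have h3 := (h2.eventually (gt_mem_nhds (show (0 : ℝ) < 1 / (1 + ε) by positivity))).exists_forall_of_atTop
  obtain ⟨N, hN⟩ := h3
  have h4 := hN (N + 1) (Nat.le_succ N)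
  have h5 : ((N : ℝ) + 1) ^ S.card / (1 + ε) ^ (N + 1) < 1 / (1 + ε) := by
    simpa using h4
  have h6 : ((ball S N).card : ℝ) ≤ ((N : ℝ) + 1) ^ S.card := by
    exact_mod_cast card_ball S N
  have h7 : (1 + ε) ^ N ≤ ((N : ℝ) + 1) ^ S.card := (h1 N).trans h6
  have h8 : 1 / (1 + ε) ≤ ((N : ℝ) + 1) ^ S.card / (1 + ε) ^ (N + 1) := by
    rw [div_le_div_iff₀ (by positivity) (by positivity), one_mul, pow_succ]
    exact mul_le_mul_of_nonneg_right h7 (by positivity)
  exact absurd (h8.trans_lt h5) (lt_irrefl _)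

end BB

section BB

/-- Foelner sets in an abelian group. -/
theorem foelner {E : Type} [AddCommGroup E] [DecidableEq E] (S : Finset E) {ε : ℝ} (hε : 0 < ε) :
    ∃ F : Finset E, F.Nonempty ∧
      ∀ u ∈ S, (1 - ε) * (F.card : ℝ) ≤ ((F.filter fun a => a + u ∈ F).card : ℝ) := by
  obtain ⟨n, hn⟩ := BB.growth S hε
  refine ⟨BB.ball S n, BB.ball_nonempty S n, fun u hu => ?_⟩
  set F := BB.ball S n with hF
  have h1 : (F.filter fun a => ¬ a + u ∈ F).card ≤ (BB.ball S (n + 1) \ F).card := by
    refine Finset.card_le_card_of_injOn (fun a => a + u) ?_ ?_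
    · intro a ha
      have ha := Finset.mem_filter.1 (Finset.mem_coe.1 ha)
      exact Finset.mem_coe.2 (Finset.mem_sdiff.2 ⟨BB.ball_add ha.1 hu, ha.2⟩)
    · intro a _ b _ hab
      exact add_right_cancel hab
  have h2 : (BB.ball S (n + 1) \ F).card + F.card = (BB.ball S (n + 1)).card :=
    Finset.card_sdiff_add_card_eq_card (BB.ball_subset S n)
  have h3 : (F.filter fun a => a + u ∈ F).card + (F.filter fun a => ¬ a + u ∈ F).card = F.card :=
    Finset.card_filter_add_card_filter_not _
  have h1' : ((F.filter fun a => ¬ a + u ∈ F).card : ℝ) ≤ ((BB.ball S (n + 1) \ F).card : ℝ) := by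
    exact_mod_cast h1
  have h2' : ((BB.ball S (n + 1) \ F).card : ℝ) + F.card = (BB.ball S (n + 1)).card := by
    exact_mod_cast h2
  have h3' : ((F.filter fun a => a + u ∈ F).card : ℝ) + ((F.filter fun a => ¬ a + u ∈ F).card : ℝ) =
      F.card := by
    exact_mod_cast h3
  linarith

end BB

end Pool.Agent.MP8b8716R
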