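import Mathlib
import Pool.Agent.Lib.MP_8b8716_co_RIG.TDefs

/-!
# The plane over the constructible numbers, module TJ: the jointly measurable extension
-/

set_option autoImplicit false

noncomputable section

namespace Pool.Agent.MP8b8716R

open MeasureTheory Filter Topology
open Pool.Agent.MP8b8716 (unitDistanceGraph)

namespace Joint

open scoped ENNReal

variable {K : Subfield ℝ} {k : ℕ}

/-- rounding down to a multiple of `1 / (n + 1)` -/
def rd (n : ℕ) (x : ℝ) : ℝ := (⌊((n : ℝ) + 1) * x⌋ : ℝ) / ((n : ℝ) + 1)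

theorem rd_mem (n : ℕ) (x : ℝ) : rd n x ∈ K :=
  K.div_mem (intCast_mem K _) (K.add_mem (natCast_mem K n) K.one_mem)

theorem rd_abs (n : ℕ) (x : ℝ) : |rd n x - x| ≤ 1 / ((n : ℝ) + 1) := by
  have hn : (0:ℝ) < (n : ℝ) + 1 := by positivity
  have h1 := Int.floor_le (((n : ℝ) + 1) * x)
  have h2 := Int.lt_floor_add_one (((n : ℝ) + 1) * x)
  have h3 : rd n x - x = ((⌊((n : ℝ) + 1) * x⌋ : ℝ) - ((n : ℝ) + 1) * x) / ((n : ℝ) + 1) := by
    unfold rd; field_simp
  rw [h3, abs_div, abs_of_pos hn]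
  gcongr
  rw [abs_le]
  constructor <;> linarith

theorem rd_meas (n : ℕ) : Measurable (rd n) := by
  unfold rd
  have h1 : Measurable fun x : ℝ => ⌊((n : ℝ) + 1) * x⌋ :=
    Int.measurable_floor.comp (measurable_const.mul measurable_id)
  have h2 : Measurable fun x : ℝ => ((⌊((n : ℝ) + 1) * x⌋ : ℤ) : ℝ) :=
    (measurable_from_top (f := fun m : ℤ => (m : ℝ))).comp h1
  exact h2.div_const _

/-- the approximation of a complex number by an element of `EE K` -/
def q (K : Subfield ℝ) (n : ℕ) (z : ℂ) : EE K :=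
  ⟨(rd n z.re : ℂ) + (rd n z.im : ℂ) * Complex.I, by
    constructor
    · simpa using rd_mem (K := K) n z.re
    · simpa using rd_mem (K := K) n z.im⟩

theorem q_norm (n : ℕ) (z : ℂ) : ‖((q K n z : EE K) : ℂ) - z‖ ≤ 2 / ((n : ℝ) + 1) := by
  have h1 := Complex.norm_le_abs_re_add_abs_im (((q K n z : EE K) : ℂ) - z)
  have h2 : (((q K n z : EE K) : ℂ) - z).re = rd n z.re - z.re := by simp [q]
  have h3 : (((q K n z : EE K) : ℂ) - z).im = rd n z.im - z.im := by simp [q]
  rw [h2, h3] at h1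
  have h4 := rd_abs n z.re
  have h5 := rd_abs n z.im
  have h6 : (2:ℝ) / ((n : ℝ) + 1) = 1 / ((n : ℝ) + 1) + 1 / ((n : ℝ) + 1) := by ring
  linarith

theorem q_meas (n : ℕ) : Measurable (q K n) := by
  refine Measurable.subtype_mk ?_
  have h1 : Measurable fun z : ℂ => (rd n z.re : ℂ) :=
    Complex.measurable_ofReal.comp ((rd_meas n).comp Complex.measurable_re)
  have h2 : Measurable fun z : ℂ => (rd n z.im : ℂ) :=
    Complex.measurable_ofReal.comp ((rd_meas n).comp Complex.measurable_im)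
  exact h1.add (h2.mul_const _)

theorem eval_meas [Countable (EE K)] : Measurable fun p : EE K × Col K k => p.2 p.1 :=
  measurable_from_prod_countable_right fun a => measurable_pi_apply a

theorem shift_meas (z : EE K) : Measurable (shift (k := k) z) :=
  measurable_pi_iff.2 fun w => measurable_pi_apply (z + w)

theorem shift_mp {μ : Measure (Col K k)} (hμ : IsRC μ) (z : EE K) :
    MeasurePreserving (shift z) μ μ := ⟨shift_meas z, hμ.shift z⟩

/-- the approximating functions -/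
def GG (g : Col K k → ℝ) (n : ℕ) (p : ℂ × Col K k) : ℝ := g (shift (q K n p.1) p.2)

theorem GG_meas [Countable (EE K)] {g : Col K k → ℝ} (hg : Measurable g) (n : ℕ) :
    Measurable (GG g n) := by
  refine hg.comp (measurable_pi_iff.2 fun w => ?_)
  have h1 : Measurable fun p : ℂ × Col K k => (q K n p.1 + w, p.2) := by
    refine Measurable.prodMk ?_ measurable_snd
    have h2 : Measurable fun a : EE K => a + w := measurable_of_countable _
    exact h2.comp ((q_meas n).comp measurable_fst)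
  exact eval_meas.comp h1

theorem shift_shift (a b : EE K) (ω : Col K k) : shift (a - b) (shift b ω) = shift a ω := by
  funext w
  unfold shift
  congr 1
  ring

/-- the correlation of two translates -/
theorem key {μ : Measure (Col K k)} (hμ : IsRC μ) {g : Col K k → ℝ} {φ : ℂ → ℝ}
    (hg : Measurable g) (hcorr : ∀ z : EE K, ∫ ω, g (shift z ω) * g ω ∂μ = φ z) (a b : EE K) :
    ∫ ω, g (shift a ω) * g (shift b ω) ∂μ = φ ((a : ℂ) - b) := by
  have h1 : ∀ ω : Col K k, g (shift a ω) * g (shift b ω) =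
      (fun ω' => g (shift (a - b) ω') * g ω') (shift b ω) := by
    intro ω
    simp only [shift_shift]
  have h2 : Measurable fun ω' : Col K k => g (shift (a - b) ω') * g ω' :=
    (hg.comp (shift_meas _)).mul hg
  calc ∫ ω, g (shift a ω) * g (shift b ω) ∂μ
      = ∫ ω, (fun ω' => g (shift (a - b) ω') * g ω') (shift b ω) ∂μ := by
        simp only [h1]
    _ = ∫ ω', (fun ω' => g (shift (a - b) ω') * g ω') ω' ∂(μ.map (shift b)) := by
        rw [integral_map (shift_meas b).aemeasurable]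
        exact h2.aestronglyMeasurable
    _ = φ ((a : ℂ) - b) := by
        rw [hμ.shift b]
        have := hcorr (a - b)
        simpa using this

theorem sq_bound {μ : Measure (Col K k)} (hμ : IsRC μ) {g : Col K k → ℝ} {φ : ℂ → ℝ}
    (hg : Measurable g) (h01 : ∀ ω, 0 ≤ g ω ∧ g ω ≤ 1)
    (hcorr : ∀ z : EE K, ∫ ω, g (shift z ω) * g ω ∂μ = φ z) (a b : EE K) :
    ∫ ω, (g (shift a ω) - g (shift b ω)) ^ 2 ∂μ = 2 * (φ 0 - φ ((a : ℂ) - b)) := by
  have := hμ.prob
  have hint : ∀ c d : EE K, Integrable (fun ω => g (shift c ω) * g (shift d ω)) μ := by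
    intro c d
    refine Integrable.of_bound
      ((hg.comp (shift_meas c)).mul (hg.comp (shift_meas d))).aestronglyMeasurable 1
      (Eventually.of_forall fun ω => ?_)
    have h1 := h01 (shift c ω)
    have h2 := h01 (shift d ω)
    rw [Real.norm_of_nonneg (mul_nonneg h1.1 h2.1)]
    exact mul_le_one₀ h1.2 h2.1 h2.2
  have h1 : ∀ ω : Col K k, (g (shift a ω) - g (shift b ω)) ^ 2 =
      g (shift a ω) * g (shift a ω) - 2 * (g (shift a ω) * g (shift b ω)) +
        g (shift b ω) * g (shift b ω) := fun ω => by ring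
  simp only [h1]
  have h2 : Integrable (fun ω => g (shift a ω) * g (shift a ω) -
      2 * (g (shift a ω) * g (shift b ω))) μ := (hint a a).sub ((hint a b).const_mul 2)
  rw [integral_add h2 (hint b b),
    integral_sub (hint a a) ((hint a b).const_mul 2), integral_const_mul,
    key hμ hg hcorr, key hμ hg hcorr, key hμ hg hcorr]
  simp only [sub_self]
  ring

theorem abs_bound {μ : Measure (Col K k)} (hμ : IsRC μ) {g : Col K k → ℝ} {φ : ℂ → ℝ}
    (hg : Measurable g) (h01 : ∀ ω, 0 ≤ g ω ∧ g ω ≤ 1)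
    (hcorr : ∀ z : EE K, ∫ ω, g (shift z ω) * g ω ∂μ = φ z) (a b : EE K) {ε : ℝ} (hε : 0 < ε)
    (h : φ 0 - φ ((a : ℂ) - b) ≤ ε ^ 2 / 2) :
    ∫⁻ ω, ‖g (shift a ω) - g (shift b ω)‖ₑ ∂μ ≤ ENNReal.ofReal ε := by
  have := hμ.prob
  have hm : Measurable fun ω => g (shift a ω) - g (shift b ω) :=
    (hg.comp (shift_meas a)).sub (hg.comp (shift_meas b))
  have hb : ∀ ω, |g (shift a ω) - g (shift b ω)| ≤ 1 := by
    intro ω
    have h1 := h01 (shift a ω)
    have h2 := h01 (shift b ω)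
    rw [abs_le]
    constructor <;> linarith
  have hi1 : Integrable (fun ω => g (shift a ω) - g (shift b ω)) μ :=
    Integrable.of_bound hm.aestronglyMeasurable 1 (Eventually.of_forall fun ω => hb ω)
  have hi2 : Integrable (fun ω => (g (shift a ω) - g (shift b ω)) ^ 2) μ := by
    refine Integrable.of_bound (hm.pow_const 2).aestronglyMeasurable 1
      (Eventually.of_forall fun ω => ?_)
    rw [norm_pow, Real.norm_eq_abs]
    exact pow_le_one₀ (abs_nonneg _) (hb ω)
  rw [← ofReal_integral_norm_eq_lintegral_enorm hi1]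
  refine ENNReal.ofReal_le_ofReal ?_
  have h2 : ∫ ω, ‖g (shift a ω) - g (shift b ω)‖ ∂μ ≤
      ∫ ω, ((2 * ε)⁻¹ * (g (shift a ω) - g (shift b ω)) ^ 2 + ε / 2) ∂μ := by
    refine integral_mono hi1.norm ((hi2.const_mul _).add (integrable_const _)) fun ω => ?_
    simp only [Real.norm_eq_abs]
    set x := g (shift a ω) - g (shift b ω) with hx
    have h3 : 0 ≤ (|x| - ε) ^ 2 := sq_nonneg _
    have h4 : |x| ^ 2 = x ^ 2 := sq_abs x
    have h5 : (2 * ε)⁻¹ * x ^ 2 + ε / 2 - |x| = (2 * ε)⁻¹ * (|x| - ε) ^ 2 := by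
      rw [← h4]
      field_simp
      ring
    have h6 : 0 ≤ (2 * ε)⁻¹ * (|x| - ε) ^ 2 := by positivity
    linarith
  rw [integral_add (hi2.const_mul _) (integrable_const _), integral_const_mul,
    sq_bound hμ hg h01 hcorr] at h2
  have h3 : ∫ _ : Col K k, ε / 2 ∂μ = ε / 2 := by simp
  rw [h3] at h2
  have h4 : (2 * ε)⁻¹ * (2 * (φ 0 - φ ((a : ℂ) - b))) ≤ ε / 2 := by
    have : (2 * ε)⁻¹ * (2 * (φ 0 - φ ((a : ℂ) - b))) ≤ (2 * ε)⁻¹ * (2 * (ε ^ 2 / 2)) := by
      gcongr
    refine this.trans (le_of_eq ?_)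
    field_simp
  linarith

/-- uniform Cauchy property -/
theorem cauchy {μ : Measure (Col K k)} (hμ : IsRC μ) {g : Fin k → Col K k → ℝ}
    {φ : Fin k → ℂ → ℝ} (hg : ∀ i, Measurable (g i)) (h01 : ∀ i ω, 0 ≤ g i ω ∧ g i ω ≤ 1)
    (hφ : ∀ i, Continuous (φ i))
    (hcorr : ∀ i (z : EE K), ∫ ω, g i (shift z ω) * g i ω ∂μ = φ i z) {ε : ℝ} (hε : 0 < ε) :
    ∃ N : ℕ, ∀ N' ≥ N, ∀ n ≥ N', ∀ m ≥ N', ∀ i, ∀ z : ℂ,
      ∫⁻ ω, ‖g i (shift (q K n z) ω) - g i (shift (q K m z) ω)‖ₑ ∂μ ≤ ENNReal.ofReal ε := by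
  have h1 : ∀ i, ∀ᶠ w in 𝓝 (0 : ℂ), φ i 0 - φ i w ≤ ε ^ 2 / 2 := by
    intro i
    have h2 : Tendsto (fun w => φ i 0 - φ i w) (𝓝 0) (𝓝 (φ i 0 - φ i 0)) :=
      tendsto_const_nhds.sub (hφ i).continuousAt
    rw [sub_self] at h2
    exact (h2.eventually_lt_const (by positivity : (0:ℝ) < ε ^ 2 / 2)).mono fun w hw => hw.le
  obtain ⟨δ, hδ, h3⟩ := Metric.eventually_nhds_iff.1 (eventually_all.2 h1)
  obtain ⟨N, hN⟩ := exists_nat_gt (4 / δ)
  refine ⟨N, fun N' hN' n hn m hm i z => ?_⟩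
  refine abs_bound hμ (hg i) (h01 i) (hcorr i) _ _ hε (h3 ?_ i)
  rw [dist_zero_right]
  have h4 : ‖((q K n z : EE K) : ℂ) - (q K m z : EE K)‖ ≤
      ‖((q K n z : EE K) : ℂ) - z‖ + ‖((q K m z : EE K) : ℂ) - z‖ := by
    have : ((q K n z : EE K) : ℂ) - (q K m z : EE K) =
      (((q K n z : EE K) : ℂ) - z) - (((q K m z : EE K) : ℂ) - z) := by ring
    rw [this]
    exact norm_sub_le _ _
  have h5 := q_norm (K := K) n z
  have h6 := q_norm (K := K) m z
  have hNpos : (0:ℝ) < N := lt_of_le_of_lt (by positivity) hN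
  have h7 : ∀ n' : ℕ, N' ≤ n' → (2:ℝ) / ((n' : ℝ) + 1) < δ / 2 := by
    intro n' hn'
    have h8 : (N : ℝ) ≤ n' := by exact_mod_cast hN'.trans hn'
    rw [div_lt_iff₀ (by positivity)]
    rw [div_lt_iff₀ hδ] at hN
    nlinarith
  have h8 := h7 n hn
  have h9 := h7 m hm
  linarith

end Joint

section TJ

open Joint in
open scoped ENNReal in
theorem exists_joint {K : Subfield ℝ} [Countable (EE K)] {k : ℕ} {μ : Measure (Col K k)}
    (hμ : IsRC μ) (g : Fin k → Col K k → ℝ) (φ : Fin k → ℂ → ℝ)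
    (hg : ∀ i, Measurable (g i)) (h01 : ∀ i ω, 0 ≤ g i ω ∧ g i ω ≤ 1)
    (hsum : ∀ᵐ ω ∂μ, ∑ i, g i ω = 1) (hφ : ∀ i, Continuous (φ i))
    (hcorr : ∀ i (z : EE K), ∫ ω, g i (shift z ω) * g i ω ∂μ = φ i z)
    (hunit : ∀ i (u : EE K), ‖(u : ℂ)‖ = 1 → φ i u = 0) :
    ∃ G : Fin k → ℂ × Col K k → ℝ, (∀ i, Measurable (G i)) ∧
      (∀ᵐ p ∂((volume : Measure ℂ).prod μ), (∀ i, 0 ≤ G i p) ∧ ∑ i, G i p = 1) ∧
      (∀ i (u : EE K), ‖(u : ℂ)‖ = 1 →
        ∀ᵐ p ∂((volume : Measure ℂ).prod μ), G i p * G i (p.1 + u, p.2) = 0) := by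
  have := hμ.prob
  have hprob : IsProbabilityMeasure (volume : Measure ℂ).toFinite := inferInstance
  have hQP : (volume : Measure ℂ).prod μ ≪ (volume : Measure ℂ).toFinite.prod μ :=
    (absolutelyContinuous_toFinite _).prod Measure.AbsolutelyContinuous.rfl
  -- the subsequence
  obtain ⟨N, hNmono, hN⟩ := extraction_forall_of_eventually'
    (P := fun j N' => ∀ n ≥ N', ∀ m ≥ N', ∀ i, ∀ z : ℂ,
      ∫⁻ ω, ‖g i (shift (q K n z) ω) - g i (shift (q K m z) ω)‖ₑ ∂μ ≤
        ENNReal.ofReal ((1 / 2 : ℝ) ^ (j + 1)))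
    (fun j => cauchy hμ hg h01 hφ hcorr (by positivity))
  have hGGm : ∀ i n, Measurable (GG (g i) n) := fun i n => GG_meas (hg i) n
  have hGG0 : ∀ i n p, 0 ≤ GG (g i) n p := fun i n p => (h01 i _).1
  have hGG1 : ∀ i n p, GG (g i) n p ≤ 1 := fun i n p => (h01 i _).2
  have hconv : ∀ i, ∀ᵐ p ∂((volume : Measure ℂ).toFinite.prod μ),
      ∃ l : ℝ, Tendsto (fun j => GG (g i) (N j) p) atTop (𝓝 l) := by
    intro i
    refine Lp.ae_tendsto_of_cauchy_eLpNorm (p := 1) (B := fun j => ENNReal.ofReal ((1 / 2 : ℝ) ^ j))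
      (fun j => (hGGm i (N j)).aestronglyMeasurable) le_rfl
      summable_geometric_two.tsum_ofReal_ne_top ?_
    intro j n m hn hm
    rw [eLpNorm_one_eq_lintegral_enorm]
    have hmeas : Measurable fun p => ‖(GG (g i) (N n) - GG (g i) (N m)) p‖ₑ :=
      ((hGGm i _).sub (hGGm i _)).enorm
    rw [lintegral_prod _ hmeas.aemeasurable]
    have h1 : ∀ z : ℂ, ∫⁻ ω, ‖(GG (g i) (N n) - GG (g i) (N m)) (z, ω)‖ₑ ∂μ ≤
        ENNReal.ofReal ((1 / 2 : ℝ) ^ (j + 1)) := fun z =>
      hN j (N n) (hNmono.monotone hn) (N m) (hNmono.monotone hm) i z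
    calc ∫⁻ z, ∫⁻ ω, ‖(GG (g i) (N n) - GG (g i) (N m)) (z, ω)‖ₑ ∂μ
          ∂(volume : Measure ℂ).toFinite
        ≤ ∫⁻ _, ENNReal.ofReal ((1 / 2 : ℝ) ^ (j + 1)) ∂(volume : Measure ℂ).toFinite :=
          lintegral_mono h1
      _ = ENNReal.ofReal ((1 / 2 : ℝ) ^ (j + 1)) := by simp
      _ < ENNReal.ofReal ((1 / 2 : ℝ) ^ j) := by
          rw [ENNReal.ofReal_lt_ofReal_iff (by positivity), pow_succ]
          have : (0:ℝ) < (1 / 2) ^ j := by positivity
          linarith
  choose G hGm hGlim using fun i =>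
    measurable_limit_of_tendsto_metrizable_ae (fun j => (hGGm i (N j)).aemeasurable) (hconv i)
  have hlimQ : ∀ i, ∀ᵐ p ∂((volume : Measure ℂ).prod μ),
      Tendsto (fun j => GG (g i) (N j) p) atTop (𝓝 (G i p)) := fun i =>
    hQP.ae_le (hGlim i)
  have hpos : ∀ i, ∀ᵐ p ∂((volume : Measure ℂ).prod μ), 0 ≤ G i p := by
    intro i
    filter_upwards [hlimQ i] with p hp
    exact ge_of_tendsto' hp fun j => hGG0 i _ p
  refine ⟨G, hGm, ?_, ?_⟩
  · have hsn : ∀ n, ∀ᵐ p ∂((volume : Measure ℂ).prod μ), ∑ i, GG (g i) n p = 1 := by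
      intro n
      have hms : MeasurableSet {p : ℂ × Col K k | ∑ i, GG (g i) n p = 1} := by
        have : Measurable fun p => ∑ i, GG (g i) n p :=
          Finset.measurable_sum _ fun i _ => hGGm i n
        exact this (measurableSet_singleton 1)
      rw [Measure.ae_prod_iff_ae_ae hms]
      refine Eventually.of_forall fun z => ?_
      exact (shift_mp hμ (q K n z)).quasiMeasurePreserving.ae hsum
    filter_upwards [ae_all_iff.2 hlimQ, ae_all_iff.2 hsn, ae_all_iff.2 hpos] with p h1 h2 h3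
    refine ⟨h3, ?_⟩
    have h4 : Tendsto (fun j => ∑ i, GG (g i) (N j) p) atTop (𝓝 (∑ i, G i p)) :=
      tendsto_finsetSum _ fun i _ => h1 i
    have h5 : (fun j => ∑ i, GG (g i) (N j) p) = fun _ => (1:ℝ) := funext fun j => h2 (N j)
    rw [h5] at h4
    exact tendsto_nhds_unique h4 tendsto_const_nhds
  · intro i u hu
    have hT : MeasurePreserving (fun p : ℂ × Col K k => (p.1 + (u : ℂ), p.2))
        ((volume : Measure ℂ).prod μ) ((volume : Measure ℂ).prod μ) :=
      (measurePreserving_add_right (volume : Measure ℂ) (u : ℂ)).prod (MeasurePreserving.id μ)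
    have hφu : φ i (-(u : ℂ)) = 0 := by
      have := hunit i (-u) (by simpa using hu)
      simpa using this
    set Fn : ℕ → ℂ × Col K k → ℝ≥0∞ := fun j p =>
      ENNReal.ofReal (GG (g i) (N j) p * GG (g i) (N j) (p.1 + u, p.2)) with hFn
    have hFm : ∀ j, Measurable (Fn j) := fun j =>
      ((hGGm i (N j)).mul ((hGGm i (N j)).comp hT.measurable)).ennreal_ofReal
    have hint : Tendsto (fun j => ∫⁻ p, Fn j p ∂((volume : Measure ℂ).toFinite.prod μ)) atTop
        (𝓝 0) := by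
      rw [ENNReal.tendsto_atTop_zero]
      intro ε hε
      obtain ⟨e, he0, hee⟩ : ∃ e : ℝ, 0 < e ∧ ENNReal.ofReal e ≤ ε := by
        rcases eq_or_ne ε ⊤ with h | h
        · exact ⟨1, one_pos, by rw [h]; exact le_top⟩
        · exact ⟨ε.toReal, ENNReal.toReal_pos hε.ne' h, (ENNReal.ofReal_toReal h).le⟩
      have h1 : ∀ᶠ w in 𝓝 (-(u : ℂ)), φ i w < e := by
        have h2 : Tendsto (φ i) (𝓝 (-(u : ℂ))) (𝓝 0) := by
          have := (hφ i).tendsto (-(u : ℂ))
          rwa [hφu] at this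
        exact h2.eventually_lt_const he0
      obtain ⟨δ, hδ, h3⟩ := Metric.eventually_nhds_iff.1 h1
      obtain ⟨M, hM⟩ := exists_nat_gt (4 / δ)
      refine ⟨M, fun j hj => ?_⟩
      rw [lintegral_prod _ (hFm j).aemeasurable]
      have h4 : ∀ z : ℂ, ∫⁻ ω, Fn j (z, ω) ∂μ ≤ ε := by
        intro z
        refine le_trans ?_ hee
        have hi : Integrable (fun ω => g i (shift (q K (N j) z) ω) *
            g i (shift (q K (N j) (z + u)) ω)) μ := by
          refine Integrable.of_bound (((hg i).comp (shift_meas _)).mul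
            ((hg i).comp (shift_meas _))).aestronglyMeasurable 1
            (Eventually.of_forall fun ω => ?_)
          have h5 := h01 i (shift (q K (N j) z) ω)
          have h6 := h01 i (shift (q K (N j) (z + u)) ω)
          rw [Real.norm_of_nonneg (mul_nonneg h5.1 h6.1)]
          exact mul_le_one₀ h5.2 h6.1 h6.2
        have h5 : ∫⁻ ω, Fn j (z, ω) ∂μ = ENNReal.ofReal (φ i
            (((q K (N j) z : EE K) : ℂ) - (q K (N j) (z + u) : EE K))) := by
          rw [← key hμ (hg i) (hcorr i)]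
          rw [ofReal_integral_eq_lintegral_ofReal hi]
          · rfl
          · exact Eventually.of_forall fun ω => mul_nonneg (h01 i _).1 (h01 i _).1
        rw [h5]
        refine ENNReal.ofReal_le_ofReal (h3 ?_).le
        rw [dist_eq_norm]
        have h6 : ((q K (N j) z : EE K) : ℂ) - (q K (N j) (z + u) : EE K) - -(u : ℂ) =
          (((q K (N j) z : EE K) : ℂ) - z) - (((q K (N j) (z + u) : EE K) : ℂ) - (z + u)) := by
          ring
        rw [h6]
        have h7 := q_norm (K := K) (N j) z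
        have h8 := q_norm (K := K) (N j) (z + u)
        have h9 := norm_sub_le (((q K (N j) z : EE K) : ℂ) - z)
          (((q K (N j) (z + u) : EE K) : ℂ) - (z + u))
        have h10 : (M : ℝ) ≤ N j := by exact_mod_cast hj.trans (hNmono.le_apply)
        have h11 : (2:ℝ) / ((N j : ℝ) + 1) < δ / 2 := by
          rw [div_lt_iff₀ (by positivity)]
          rw [div_lt_iff₀ hδ] at hM
          nlinarith
        linarith
      calc ∫⁻ z, ∫⁻ ω, Fn j (z, ω) ∂μ ∂(volume : Measure ℂ).toFinite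
          ≤ ∫⁻ _, ε ∂(volume : Measure ℂ).toFinite := lintegral_mono h4
        _ = ε := by simp
    have hli : ∫⁻ p, liminf (fun j => Fn j p) atTop ∂((volume : Measure ℂ).toFinite.prod μ) =
        0 := by
      refine le_antisymm ?_ bot_le
      refine (lintegral_liminf_le hFm).trans ?_
      rw [hint.liminf_eq]
    have hli2 : ∀ᵐ p ∂((volume : Measure ℂ).toFinite.prod μ),
        liminf (fun j => Fn j p) atTop = 0 := by
      have := (lintegral_eq_zero_iff (Measurable.liminf hFm)).1 hli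
      filter_upwards [this] with p hp
      exact hp
    filter_upwards [hQP.ae_le hli2, hlimQ i, hT.quasiMeasurePreserving.ae (hlimQ i), hpos i,
      hT.quasiMeasurePreserving.ae (hpos i)] with p h1 h2 h3 h4 h5
    have h6 : Tendsto (fun j => Fn j p) atTop
        (𝓝 (ENNReal.ofReal (G i p * G i (p.1 + u, p.2)))) :=
      (ENNReal.continuous_ofReal.tendsto _).comp (h2.mul h3)
    rw [h6.liminf_eq, ENNReal.ofReal_eq_zero] at h1
    exact le_antisymm h1 (mul_nonneg h4 h5)

end TJ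

end Pool.Agent.MP8b8716R
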