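import Mathlib
import Pool.Agent.Lib.MP_8b8716_co_RIG.TDefs
import Pool.Agent.Lib.MP_8b8716_co_RIG.Corr

/-!
# Limits of averages over small finite sets

The indicator functions of the colours, averaged over `n` points near `0`, converge in mean; the
correlation functions of the limits are the continuous parts of the correlation functions of the
colours.
-/

set_option autoImplicit false

noncomputable section

namespace Pool.Agent.MP8b8716R

open MeasureTheory Filter Topology
open Pool.Agent.MP8b8716 (unitDistanceGraph)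

namespace Limit

variable {K : Subfield ℝ} {k : ℕ}

/-- indicator of the colour `i` at the point `z` -/
def X (i : Fin k) (z : EE K) (ω : Col K k) : ℝ :=
  Set.indicator {ω : Col K k | ω z = i} (1 : Col K k → ℝ) ω

theorem measurable_X (i : Fin k) (z : EE K) : Measurable (X (K := K) i z) := by
  have h : MeasurableSet {ω : Col K k | ω z = i} := by
    have h1 : Measurable (fun ω : Col K k => ω z) := measurable_pi_apply z
    exact h1 (MeasurableSet.singleton i)
  exact (measurable_const (a := (1 : ℝ))).indicator h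

theorem X_eq (i : Fin k) (z : EE K) (ω : Col K k) : X i z ω = if ω z = i then 1 else 0 := by
  unfold X
  rw [Set.indicator_apply]
  rfl

theorem X_nonneg (i : Fin k) (z : EE K) (ω : Col K k) : 0 ≤ X i z ω := by
  rw [X_eq]; split_ifs <;> norm_num

theorem X_le_one (i : Fin k) (z : EE K) (ω : Col K k) : X i z ω ≤ 1 := by
  rw [X_eq]; split_ifs <;> norm_num

theorem X_shift (i : Fin k) (v z : EE K) (ω : Col K k) : X i z (shift v ω) = X i (v + z) ω := by
  rw [X_eq, X_eq]; rfl

theorem sum_X (z : EE K) (ω : Col K k) : ∑ i, X i z ω = 1 := by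
  simp only [X_eq]
  simp

/-- the points `(j + 1) / (n + 1) ^ 2` -/
def pt (K : Subfield ℝ) (n j : ℕ) : EE K :=
  ⟨((((j : ℝ) + 1) / ((n : ℝ) + 1) ^ 2 : ℝ) : ℂ), by
    refine ⟨?_, ?_⟩
    · rw [Complex.ofReal_re]
      exact K.div_mem (K.add_mem (natCast_mem K j) K.one_mem)
        (K.pow_mem (K.add_mem (natCast_mem K n) K.one_mem) 2)
    · rw [Complex.ofReal_im]
      exact K.zero_mem⟩

theorem pt_coe (n j : ℕ) :
    ((pt K n j : EE K) : ℂ) = ((((j : ℝ) + 1) / ((n : ℝ) + 1) ^ 2 : ℝ) : ℂ) := rfl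

theorem pt_inj {n j j' : ℕ} (h : pt K n j = pt K n j') : j = j' := by
  have h1 : ((pt K n j : EE K) : ℂ) = ((pt K n j' : EE K) : ℂ) := by rw [h]
  rw [pt_coe, pt_coe, Complex.ofReal_inj] at h1
  have h2 : (0 : ℝ) < ((n : ℝ) + 1) ^ 2 := by positivity
  rw [div_left_inj' h2.ne'] at h1
  have h3 : (j : ℝ) = j' := by linarith
  exact_mod_cast h3

theorem norm_pt {n j : ℕ} (h : j < n + 1) : ‖((pt K n j : EE K) : ℂ)‖ ≤ 1 / ((n : ℝ) + 1) := by
  rw [pt_coe, Complex.norm_real, Real.norm_eq_abs, abs_of_nonneg (by positivity)]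
  have h1 : ((j : ℝ) + 1) ≤ (n : ℝ) + 1 := by
    have : (j : ℝ) + 1 ≤ ((n + 1 : ℕ) : ℝ) := by exact_mod_cast h
    push_cast at this
    linarith
  have h2 : (0 : ℝ) < (n : ℝ) + 1 := by positivity
  rw [div_le_div_iff₀ (by positivity) h2]
  nlinarith

/-- average over the points `pt K n j` -/
def P (i : Fin k) (n : ℕ) (ω : Col K k) : ℝ :=
  (1 / ((n : ℝ) + 1)) * ∑ j ∈ Finset.range (n + 1), X i (pt K n j) ω

theorem measurable_P (i : Fin k) (n : ℕ) : Measurable (P (K := K) i n) :=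
  (Finset.measurable_sum _ fun j _ => measurable_X i (pt K n j)).const_mul _

theorem P_nonneg (i : Fin k) (n : ℕ) (ω : Col K k) : 0 ≤ P i n ω :=
  mul_nonneg (by positivity) (Finset.sum_nonneg fun j _ => X_nonneg i _ ω)

theorem P_le_one (i : Fin k) (n : ℕ) (ω : Col K k) : P i n ω ≤ 1 := by
  have h1 : ∑ j ∈ Finset.range (n + 1), X i (pt K n j) ω ≤ (n : ℝ) + 1 := by
    calc ∑ j ∈ Finset.range (n + 1), X i (pt K n j) ω ≤ ∑ j ∈ Finset.range (n + 1), (1 : ℝ) :=
          Finset.sum_le_sum fun j _ => X_le_one i _ ω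
      _ = (n : ℝ) + 1 := by simp
  have h2 : (0 : ℝ) < (n : ℝ) + 1 := by positivity
  unfold P
  rw [one_div, inv_mul_le_iff₀ h2, mul_one]
  exact h1

theorem sum_P (n : ℕ) (ω : Col K k) : ∑ i, P i n ω = 1 := by
  unfold P
  rw [← Finset.mul_sum, Finset.sum_comm]
  simp only [sum_X]
  have h2 : (0 : ℝ) < (n : ℝ) + 1 := by positivity
  simp only [Finset.sum_const, Finset.card_range, nsmul_eq_mul, mul_one]
  push_cast
  field_simp

theorem shift_zero (ω : Col K k) : shift 0 ω = ω := by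
  funext w
  show ω (0 + w) = ω w
  rw [zero_add]

theorem measurable_shift (v : EE K) : Measurable (shift (K := K) (k := k) v) :=
  measurable_pi_lambda _ fun w => measurable_pi_apply (v + w)

theorem integrable_of_bdd {μ : Measure (Col K k)} [IsFiniteMeasure μ] {f : Col K k → ℝ}
    (hf : Measurable f) {C : ℝ} (hC : ∀ ω, |f ω| ≤ C) : Integrable f μ :=
  Integrable.of_bound hf.aestronglyMeasurable C
    (Eventually.of_forall fun ω => by rw [Real.norm_eq_abs]; exact hC ω)

/-- the correlations of the averages as averages of correlations -/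
theorem integral_PP [Countable (EE K)] {μ : Measure (Col K k)} (hμ : IsRC μ) (i : Fin k)
    (v : EE K) (n m : ℕ) :
    ∫ ω, P i n (shift v ω) * P i m ω ∂μ = (1 / (((n : ℝ) + 1) * ((m : ℝ) + 1))) *
      ∑ j ∈ Finset.range (n + 1), ∑ l ∈ Finset.range (m + 1),
        (corr μ i (pt K m l - (v + pt K n j))).re := by
  have := hμ.prob
  have h1 : ∀ ω, P i n (shift v ω) * P i m ω = (1 / (((n : ℝ) + 1) * ((m : ℝ) + 1))) *
      ∑ j ∈ Finset.range (n + 1), ∑ l ∈ Finset.range (m + 1),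
        X i (v + pt K n j) ω * X i (pt K m l) ω := by
    intro ω
    unfold P
    simp only [X_shift]
    rw [← Finset.sum_mul_sum, one_div, one_div, one_div, mul_inv]
    ring
  have hint : ∀ z w : EE K, Integrable (fun ω => X i z ω * X i w ω) μ := by
    intro z w
    refine integrable_of_bdd ((measurable_X i z).mul (measurable_X i w)) (C := 1) fun ω => ?_
    rw [abs_mul, abs_of_nonneg (X_nonneg i z ω), abs_of_nonneg (X_nonneg i w ω)]
    exact mul_le_one₀ (X_le_one i z ω) (X_nonneg i w ω) (X_le_one i w ω)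
  simp only [h1]
  rw [integral_const_mul, integral_finsetSum _ fun j _ => integrable_finsetSum _
    fun l _ => hint _ _]
  congr 1
  refine Finset.sum_congr rfl fun j _ => ?_
  rw [integral_finsetSum _ fun l _ => hint _ _]
  refine Finset.sum_congr rfl fun l _ => ?_
  have h2 := integral_shift hμ i (v + pt K n j) (pt K m l)
  have h3 := congrArg Complex.re h2
  rw [Complex.ofReal_re] at h3
  exact h3

/-- the combinatorial estimate -/
theorem avg_bound {n m : ℕ} {c : ℕ → ℕ → ℝ} {z : ℕ → EE K} {w : ℕ → EE K} {φ0 e a : ℝ}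
    (ha : 0 ≤ a) (hz : ∀ l l', z l = z l' → l = l')
    (hc : ∀ j < n + 1, ∀ l < m + 1, z l ≠ w j → |c j l - φ0| ≤ e)
    (hc' : ∀ j < n + 1, ∀ l < m + 1, z l = w j → |c j l - φ0| ≤ e + a) :
    |(1 / (((n : ℝ) + 1) * ((m : ℝ) + 1))) *
      (∑ j ∈ Finset.range (n + 1), ∑ l ∈ Finset.range (m + 1), c j l) - φ0| ≤
        e + a / ((m : ℝ) + 1) := by
  classical
  have hn : (0 : ℝ) < (n : ℝ) + 1 := by positivity
  have hm : (0 : ℝ) < (m : ℝ) + 1 := by positivity
  have h1 : (1 / (((n : ℝ) + 1) * ((m : ℝ) + 1))) *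
      (∑ j ∈ Finset.range (n + 1), ∑ l ∈ Finset.range (m + 1), c j l) - φ0 =
      (1 / (((n : ℝ) + 1) * ((m : ℝ) + 1))) *
      (∑ j ∈ Finset.range (n + 1), ∑ l ∈ Finset.range (m + 1), (c j l - φ0)) := by
    simp only [Finset.sum_sub_distrib, Finset.sum_const, Finset.card_range, nsmul_eq_mul]
    push_cast
    field_simp
  have h2 : ∀ j ∈ Finset.range (n + 1),
      |∑ l ∈ Finset.range (m + 1), (c j l - φ0)| ≤ ((m : ℝ) + 1) * e + a := by
    intro j hj
    rw [Finset.mem_range] at hj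
    calc |∑ l ∈ Finset.range (m + 1), (c j l - φ0)|
        ≤ ∑ l ∈ Finset.range (m + 1), |c j l - φ0| := Finset.abs_sum_le_sum_abs _ _
      _ ≤ ∑ l ∈ Finset.range (m + 1), (e + if z l = w j then a else 0) := by
          refine Finset.sum_le_sum fun l hl => ?_
          rw [Finset.mem_range] at hl
          split_ifs with h
          · exact hc' j hj l hl h
          · rw [add_zero]
            exact hc j hj l hl h
      _ = ((m : ℝ) + 1) * e + ((Finset.range (m + 1)).filter fun l => z l = w j).card * a := by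
          rw [Finset.sum_add_distrib, Finset.sum_const, Finset.card_range, ← Finset.sum_filter,
            Finset.sum_const]
          simp
      _ ≤ ((m : ℝ) + 1) * e + a := by
          have h3 : ((Finset.range (m + 1)).filter fun l => z l = w j).card ≤ 1 := by
            refine Finset.card_le_one.2 fun l hl l' hl' => ?_
            rw [Finset.mem_filter] at hl hl'
            exact hz l l' (hl.2.trans hl'.2.symm)
          have h4 : (((Finset.range (m + 1)).filter fun l => z l = w j).card : ℝ) ≤ 1 := by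
            exact_mod_cast h3
          nlinarith
  rw [h1, abs_mul, abs_of_nonneg (by positivity)]
  have h5 : |∑ j ∈ Finset.range (n + 1), ∑ l ∈ Finset.range (m + 1), (c j l - φ0)| ≤
      ((n : ℝ) + 1) * (((m : ℝ) + 1) * e + a) := by
    calc |∑ j ∈ Finset.range (n + 1), ∑ l ∈ Finset.range (m + 1), (c j l - φ0)|
        ≤ ∑ j ∈ Finset.range (n + 1), |∑ l ∈ Finset.range (m + 1), (c j l - φ0)| :=
          Finset.abs_sum_le_sum_abs _ _
      _ ≤ ∑ j ∈ Finset.range (n + 1), (((m : ℝ) + 1) * e + a) := Finset.sum_le_sum h2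
      _ = ((n : ℝ) + 1) * (((m : ℝ) + 1) * e + a) := by
          rw [Finset.sum_const, Finset.card_range, nsmul_eq_mul]
          push_cast
          ring
  calc 1 / (((n : ℝ) + 1) * ((m : ℝ) + 1)) *
        |∑ j ∈ Finset.range (n + 1), ∑ l ∈ Finset.range (m + 1), (c j l - φ0)|
      ≤ 1 / (((n : ℝ) + 1) * ((m : ℝ) + 1)) * (((n : ℝ) + 1) * (((m : ℝ) + 1) * e + a)) :=
        mul_le_mul_of_nonneg_left h5 (by positivity)
    _ = e + a / ((m : ℝ) + 1) := by field_simp

/-- the limit of the correlations -/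
theorem corr_lim [Countable (EE K)] {μ : Measure (Col K k)} (hμ : IsRC μ) (i : Fin k)
    {a : ℝ} {Φ : ℂ → ℝ} (ha : 0 ≤ a) (hΦ : Continuous Φ)
    (hc : ∀ z : EE K, z ≠ 0 → (corr μ i z).re = Φ z) (hc0 : (corr μ i 0).re = a + Φ 0)
    (v : EE K) {ε : ℝ} (hε : 0 < ε) :
    ∃ N : ℕ, ∀ n ≥ N, ∀ m ≥ N, |∫ ω, P i n (shift v ω) * P i m ω ∂μ - Φ (-(v : ℂ))| ≤ ε := by
  obtain ⟨δ, hδ, hδ'⟩ := Metric.continuous_iff.1 hΦ (-(v : ℂ)) (ε / 2) (half_pos hε)
  obtain ⟨N, hN⟩ := exists_nat_gt (max (2 / δ) (2 * a / ε))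
  refine ⟨N, fun n hn m hm => ?_⟩
  have hNn : (N : ℝ) ≤ n := by exact_mod_cast hn
  have hNm : (N : ℝ) ≤ m := by exact_mod_cast hm
  have h2 : 2 / δ < N := (le_max_left _ _).trans_lt hN
  have h3 : 2 * a / ε < N := (le_max_right _ _).trans_lt hN
  have hdn : 1 / ((n : ℝ) + 1) < δ / 2 := by
    rw [div_lt_iff₀ (by positivity)]
    rw [div_lt_iff₀ hδ] at h2
    nlinarith
  have hdm : 1 / ((m : ℝ) + 1) < δ / 2 := by
    rw [div_lt_iff₀ (by positivity)]
    rw [div_lt_iff₀ hδ] at h2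
    nlinarith
  have ham : a / ((m : ℝ) + 1) ≤ ε / 2 := by
    rw [div_le_iff₀ (by positivity)]
    rw [div_lt_iff₀ hε] at h3
    nlinarith
  have hclose : ∀ j < n + 1, ∀ l < m + 1,
      |Φ ((pt K m l - (v + pt K n j) : EE K) : ℂ) - Φ (-(v : ℂ))| ≤ ε / 2 := by
    intro j hj l hl
    have h4 := norm_pt (K := K) hj
    have h5 := norm_pt (K := K) hl
    have h6 : dist ((pt K m l - (v + pt K n j) : EE K) : ℂ) (-(v : ℂ)) < δ := by
      rw [dist_eq_norm]
      have h7 : ((pt K m l - (v + pt K n j) : EE K) : ℂ) - -(v : ℂ) =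
          ((pt K m l : EE K) : ℂ) - ((pt K n j : EE K) : ℂ) := by
        push_cast
        ring
      rw [h7]
      calc ‖((pt K m l : EE K) : ℂ) - ((pt K n j : EE K) : ℂ)‖ ≤ _ := norm_sub_le _ _
        _ < δ := by linarith
    have h8 := hδ' _ h6
    rw [Real.dist_eq] at h8
    exact h8.le
  rw [integral_PP hμ]
  have h9 := avg_bound (K := K) (n := n) (m := m)
    (c := fun j l => (corr μ i (pt K m l - (v + pt K n j))).re) (z := fun l => pt K m l)
    (w := fun j => v + pt K n j) (φ0 := Φ (-(v : ℂ))) (e := ε / 2) ha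
    (fun l l' h => pt_inj h) ?_ ?_
  · linarith
  · intro j hj l hl hne
    rw [hc _ (sub_ne_zero.2 hne)]
    exact hclose j hj l hl
  · intro j hj l hl heq
    have h10 := hclose j hj l hl
    rw [sub_eq_zero.2 heq] at h10
    show |(corr μ i (pt K m l - (v + pt K n j))).re - Φ (-(v : ℂ))| ≤ ε / 2 + a
    rw [sub_eq_zero.2 heq, hc0]
    have h11 : a + Φ 0 - Φ (-(v : ℂ)) = (Φ ((0 : EE K) : ℂ) - Φ (-(v : ℂ))) + a := by
      push_cast
      ring
    rw [h11]
    calc |(Φ ((0 : EE K) : ℂ) - Φ (-(v : ℂ))) + a| ≤ _ := abs_add_le _ _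
      _ ≤ ε / 2 + a := by rw [abs_of_nonneg ha]; linarith

/-- the averages are close in `L²` -/
theorem sq_lim [Countable (EE K)] {μ : Measure (Col K k)} (hμ : IsRC μ) (i : Fin k)
    {a : ℝ} {Φ : ℂ → ℝ} (ha : 0 ≤ a) (hΦ : Continuous Φ)
    (hc : ∀ z : EE K, z ≠ 0 → (corr μ i z).re = Φ z) (hc0 : (corr μ i 0).re = a + Φ 0)
    {ε : ℝ} (hε : 0 < ε) :
    ∃ N : ℕ, ∀ n ≥ N, ∀ m ≥ N, ∫ ω, (P i n ω - P i m ω) ^ 2 ∂μ ≤ ε := by
  have := hμ.prob
  obtain ⟨N, hN⟩ := corr_lim hμ i ha hΦ hc hc0 0 (ε := ε / 4) (by linarith)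
  refine ⟨N, fun n hn m hm => ?_⟩
  have hint : ∀ n m : ℕ, Integrable (fun ω => P (K := K) i n ω * P i m ω) μ := by
    intro n m
    refine integrable_of_bdd ((measurable_P i n).mul (measurable_P i m)) (C := 1) fun ω => ?_
    rw [abs_mul, abs_of_nonneg (P_nonneg i n ω), abs_of_nonneg (P_nonneg i m ω)]
    exact mul_le_one₀ (P_le_one i n ω) (P_nonneg i m ω) (P_le_one i m ω)
  have h1 : ∀ ω : Col K k, (P i n ω - P i m ω) ^ 2 =
      P i n ω * P i n ω - P i n ω * P i m ω - (P i m ω * P i n ω - P i m ω * P i m ω) := by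
    intro ω; ring
  have hA : Integrable (fun ω => P (K := K) i n ω * P i n ω - P i n ω * P i m ω) μ :=
    (hint n n).sub (hint n m)
  have hB : Integrable (fun ω => P (K := K) i m ω * P i n ω - P i m ω * P i m ω) μ :=
    (hint m n).sub (hint m m)
  simp only [h1]
  rw [integral_sub hA hB, integral_sub (hint n n) (hint n m), integral_sub (hint m n) (hint m m)]
  have e1 := hN n hn n hn
  have e2 := hN n hn m hm
  have e3 := hN m hm n hn
  have e4 := hN m hm m hm
  simp only [shift_zero] at e1 e2 e3 e4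
  rw [abs_le] at e1 e2 e3 e4
  linarith [e1.1, e1.2, e2.1, e2.2, e3.1, e3.2, e4.1, e4.2]

/-- closeness in `L¹` -/
theorem eLpNorm_lt {μ : Measure (Col K k)} [IsProbabilityMeasure μ] {f : Col K k → ℝ}
    (hf : Measurable f) (hb : ∀ ω, |f ω| ≤ 1) {η : ℝ} (hη : 0 < η)
    (h : ∫ ω, f ω ^ 2 ∂μ ≤ η ^ 2) : eLpNorm f 1 μ ≤ ENNReal.ofReal η := by
  have hi1 : Integrable f μ := integrable_of_bdd hf hb
  have hi2 : Integrable (fun ω => f ω ^ 2) μ := by
    refine integrable_of_bdd (hf.pow_const 2) (C := 1) fun ω => ?_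
    rw [abs_pow]
    exact pow_le_one₀ (abs_nonneg _) (hb ω)
  rw [eLpNorm_one_eq_lintegral_enorm, ← ofReal_integral_norm_eq_lintegral_enorm hi1]
  refine ENNReal.ofReal_le_ofReal ?_
  have h1 : ∀ ω, ‖f ω‖ ≤ η / 2 + f ω ^ 2 / (2 * η) := by
    intro ω
    rw [Real.norm_eq_abs]
    have h2 : 0 ≤ (|f ω| - η) ^ 2 := sq_nonneg _
    have h3 : |f ω| ^ 2 = f ω ^ 2 := sq_abs _
    have h4 : η / 2 + f ω ^ 2 / (2 * η) - |f ω| = (|f ω| - η) ^ 2 / (2 * η) := by
      rw [← h3]
      field_simp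
      ring
    have h5 : 0 ≤ (|f ω| - η) ^ 2 / (2 * η) := by positivity
    linarith
  calc ∫ ω, ‖f ω‖ ∂μ ≤ ∫ ω, (η / 2 + f ω ^ 2 / (2 * η)) ∂μ :=
        integral_mono hi1.norm ((integrable_const _).add (hi2.div_const _)) h1
    _ = η / 2 + (∫ ω, f ω ^ 2 ∂μ) / (2 * η) := by
        rw [integral_add (integrable_const _) (hi2.div_const _),
          integral_div (2 * η) (fun ω => f ω ^ 2)]
        simp
    _ ≤ η / 2 + η ^ 2 / (2 * η) := by gcongr
    _ = η := by field_simp; ring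

/-- the continuous part of the correlation -/
def Phi (ν : Measure ℂ) (x : ℂ) : ℝ :=
  (∫ ξ, Complex.exp (2 * Real.pi * Complex.I * (((x * ξ).re : ℝ) : ℂ)) ∂ν).re

theorem continuous_Phi (ν : Measure ℂ) [IsFiniteMeasure ν] : Continuous (Phi ν) := by
  refine Complex.continuous_re.comp ?_
  refine continuous_of_dominated (bound := fun _ => 1) ?_ ?_ (integrable_const 1) ?_
  · intro x
    exact (Continuous.aestronglyMeasurable (by fun_prop))
  · intro x
    refine Eventually.of_forall fun ξ => ?_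
    have h1 : (2 * Real.pi * Complex.I * (((x * ξ).re : ℝ) : ℂ)) =
        ((2 * Real.pi * (x * ξ).re : ℝ) : ℂ) * Complex.I := by
      push_cast
      ring
    rw [h1, Complex.norm_exp_ofReal_mul_I]
  · refine Eventually.of_forall fun ξ => ?_
    fun_prop

end Limit

section TG

open Limit in
theorem exists_limit {K : Subfield ℝ} [Countable (EE K)] {k : ℕ} {μ : Measure (Col K k)}
    (hμ : IsRC μ) (hd : ∀ i, Decomp K (corr μ i)) :
    ∃ (g : Fin k → Col K k → ℝ) (φ : Fin k → ℂ → ℝ),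
      (∀ i, Measurable (g i)) ∧ (∀ i ω, 0 ≤ g i ω ∧ g i ω ≤ 1) ∧
      (∀ᵐ ω ∂μ, ∑ i, g i ω = 1) ∧ (∀ i, Continuous (φ i)) ∧
      (∀ i (z : EE K), ∫ ω, g i (shift z ω) * g i ω ∂μ = φ i z) ∧
      (∀ i (u : EE K), ‖(u : ℂ)‖ = 1 → φ i u = 0) := by
  have hprob := hμ.prob
  choose a ν ha hν hcorr using hd
  have hcont : ∀ i, Continuous (Phi (ν i)) := fun i => by
    have := hν i
    exact continuous_Phi (ν i)
  have hc : ∀ i (z : EE K), z ≠ 0 → (corr μ i z).re = Phi (ν i) z := by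
    intro i z hz
    rw [hcorr i z, if_neg hz, zero_add]
    rfl
  have hc0 : ∀ i, (corr μ i 0).re = a i + Phi (ν i) 0 := by
    intro i
    rw [hcorr i 0, if_pos rfl, Complex.add_re, Complex.ofReal_re]
    rfl
  -- the thresholds
  have hthr : ∀ q : ℕ, ∃ N : ℕ, ∀ i, ∀ n ≥ N, ∀ m ≥ N,
      ∫ ω, (P (K := K) i n ω - P i m ω) ^ 2 ∂μ ≤ ((1 / 2 : ℝ) ^ (q + 1)) ^ 2 := by
    intro q
    choose N hN using fun i => sq_lim hμ i (ha i) (hcont i) (hc i) (hc0 i)
      (ε := ((1 / 2 : ℝ) ^ (q + 1)) ^ 2) (by positivity)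
    refine ⟨Finset.univ.sup N, fun i n hn m hm => ?_⟩
    exact hN i n ((Finset.le_sup (Finset.mem_univ i)).trans hn) m
      ((Finset.le_sup (Finset.mem_univ i)).trans hm)
  choose N hN using hthr
  let s : ℕ → ℕ := fun q => q + ∑ j ∈ Finset.range (q + 1), N j
  have hs : ∀ q n : ℕ, q ≤ n → N q ≤ s n := by
    intro q n h
    have h1 : N q ≤ ∑ j ∈ Finset.range (n + 1), N j :=
      Finset.single_le_sum (fun j _ => Nat.zero_le (N j)) (Finset.mem_range.2 (by omega))
    exact h1.trans (Nat.le_add_left _ _)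
  have hs' : Tendsto s atTop atTop :=
    tendsto_atTop_mono (fun q => Nat.le_add_right q _) tendsto_id
  -- almost everywhere convergence
  have hconv : ∀ i, ∀ᵐ ω ∂μ, ∃ l : ℝ, Tendsto (fun q => P (K := K) i (s q) ω) atTop (𝓝 l) := by
    intro i
    refine Lp.ae_tendsto_of_cauchy_eLpNorm (p := 1) (f := fun q => P (K := K) i (s q))
      (B := fun q => ENNReal.ofReal ((1 / 2 : ℝ) ^ q))
      (fun q => (measurable_P i (s q)).aestronglyMeasurable) le_rfl
      summable_geometric_two.tsum_ofReal_ne_top ?_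
    intro q n m hn hm
    have h1 : eLpNorm (fun ω => P (K := K) i (s n) ω - P i (s m) ω) 1 μ ≤
        ENNReal.ofReal ((1 / 2 : ℝ) ^ (q + 1)) := by
      refine eLpNorm_lt ((measurable_P i _).sub (measurable_P i _)) ?_ (by positivity)
        (hN q i _ (hs q n hn) _ (hs q m hm))
      intro ω
      show |P i (s n) ω - P i (s m) ω| ≤ 1
      rw [abs_le]
      constructor <;> linarith [P_nonneg i (s n) ω, P_nonneg i (s m) ω, P_le_one i (s n) ω,
        P_le_one i (s m) ω]
    refine lt_of_le_of_lt h1 ?_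
    rw [ENNReal.ofReal_lt_ofReal_iff (by positivity)]
    exact pow_lt_pow_right_of_lt_one₀ (by norm_num) (by norm_num) (Nat.lt_succ_self q)
  choose g0 hg0 hg0' using fun i => measurable_limit_of_tendsto_metrizable_ae (μ := μ)
    (L := atTop) (f := fun q => P (K := K) i (s q)) (fun q => (measurable_P i (s q)).aemeasurable)
    (hconv i)
  let g : Fin k → Col K k → ℝ := fun i ω => max 0 (min 1 (g0 i ω))
  have hgm : ∀ i, Measurable (g i) := fun i =>
    measurable_const.max (measurable_const.min (hg0 i))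
  have hg01 : ∀ i ω, 0 ≤ g i ω ∧ g i ω ≤ 1 := fun i ω =>
    ⟨le_max_left _ _, max_le zero_le_one (min_le_left _ _)⟩
  have hglim : ∀ i, ∀ᵐ ω ∂μ, Tendsto (fun q => P (K := K) i (s q) ω) atTop (𝓝 (g i ω)) := by
    intro i
    filter_upwards [hg0' i] with ω hω
    have h1 : 0 ≤ g0 i ω := ge_of_tendsto' hω fun q => P_nonneg i _ ω
    have h2 : g0 i ω ≤ 1 := le_of_tendsto' hω fun q => P_le_one i _ ω
    have h3 : g i ω = g0 i ω := by
      show max 0 (min 1 (g0 i ω)) = g0 i ω
      rw [min_eq_right h2, max_eq_right h1]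
    rw [h3]
    exact hω
  refine ⟨g, fun i x => Phi (ν i) (-x), hgm, hg01, ?_, ?_, ?_, ?_⟩
  · filter_upwards [ae_all_iff.2 hglim] with ω hω
    have h1 : Tendsto (fun q => ∑ i, P (K := K) i (s q) ω) atTop (𝓝 (∑ i, g i ω)) :=
      tendsto_finsetSum _ fun i _ => hω i
    simp only [sum_P] at h1
    exact tendsto_nhds_unique h1 tendsto_const_nhds
  · intro i
    exact (hcont i).comp continuous_neg
  · intro i z
    have hmp : MeasurePreserving (shift (K := K) (k := k) z) μ μ :=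
      ⟨measurable_shift z, hμ.shift z⟩
    have h1 : Tendsto (fun q => ∫ ω, P (K := K) i (s q) (shift z ω) * P i (s q) ω ∂μ) atTop
        (𝓝 (∫ ω, g i (shift z ω) * g i ω ∂μ)) := by
      refine tendsto_integral_of_dominated_convergence (fun _ => 1) (fun q => ?_)
        (integrable_const 1) (fun q => ?_) ?_
      · exact (((measurable_P i _).comp (measurable_shift z)).mul
          (measurable_P i _)).aestronglyMeasurable
      · refine Eventually.of_forall fun ω => ?_
        rw [Real.norm_eq_abs, abs_mul, abs_of_nonneg (P_nonneg i _ _),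
          abs_of_nonneg (P_nonneg i _ _)]
        exact mul_le_one₀ (P_le_one i _ _) (P_nonneg i _ _) (P_le_one i _ _)
      · filter_upwards [hglim i, hmp.quasiMeasurePreserving.ae (hglim i)] with ω h2 h3
        exact h3.mul h2
    have h2 : Tendsto (fun q => ∫ ω, P (K := K) i (s q) (shift z ω) * P i (s q) ω ∂μ) atTop
        (𝓝 (Phi (ν i) (-(z : ℂ)))) := by
      rw [Metric.tendsto_atTop]
      intro ε hε
      obtain ⟨M, hM⟩ := corr_lim hμ i (ha i) (hcont i) (hc i) (hc0 i) z (half_pos hε)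
      obtain ⟨Q, hQ⟩ := (tendsto_atTop.1 hs' M).exists_forall_of_atTop
      refine ⟨Q, fun q hq => ?_⟩
      rw [Real.dist_eq]
      exact (hM _ (hQ q hq) _ (hQ q hq)).trans_lt (half_lt_self hε)
    exact tendsto_nhds_unique h1 h2
  · intro i u hu
    have h1 : ‖((-u : EE K) : ℂ)‖ = 1 := by
      push_cast
      rwa [norm_neg]
    have h2 : (-u : EE K) ≠ 0 := by
      intro h
      rw [h] at h1
      simp at h1
    have h3 := hc i (-u) h2
    rw [corr_unit hμ i (-u) h1, Complex.zero_re] at h3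
    have h4 : ((-u : EE K) : ℂ) = -(u : ℂ) := by push_cast; rfl
    rw [h4] at h3
    exact h3.symm

end TG

end Pool.Agent.MP8b8716R
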