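import Mathlib
import Pool.Agent.Lib.MP_8b8716_co_RIG.TDefs

/-!
# From a measurable partition of unity to disjoint sets without unit distances
-/

set_option autoImplicit false

noncomputable section

namespace Pool.Agent.MP8b8716R

open MeasureTheory Filter Topology
open Pool.Agent.MP8b8716 (unitDistanceGraph)

namespace Partition

/-- `x` is a density point of `C` -/
def Dens (C : Set ℂ) (x : ℂ) : Prop :=
  Tendsto (fun r : ℝ => volume (C ∩ Metric.closedBall x r) / volume (Metric.closedBall x r))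
    (𝓝[>] 0) (𝓝 1)

theorem vol_ball (x : ℂ) {r : ℝ} (hr : 0 ≤ r) :
    volume.real (Metric.closedBall x r) = Real.pi * r ^ 2 := by
  rw [Measure.real, Complex.volume_closedBall, ENNReal.toReal_mul, ENNReal.toReal_pow,
    ENNReal.toReal_ofReal hr]
  simp [mul_comm]

theorem fin_ball (x : ℂ) (r : ℝ) : volume (Metric.closedBall x r) ≠ ⊤ :=
  (isCompact_closedBall x r).measure_lt_top.ne

theorem Dens.eventually {C : Set ℂ} {x : ℂ} (h : Dens C x) :
    ∀ᶠ r : ℝ in 𝓝[>] 0,
      9 / 10 * (Real.pi * r ^ 2) < volume.real (C ∩ Metric.closedBall x r) := by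
  have h1 : Tendsto (fun r : ℝ => (volume (C ∩ Metric.closedBall x r) /
      volume (Metric.closedBall x r)).toReal) (𝓝[>] 0) (𝓝 (1 : ENNReal).toReal) :=
    (ENNReal.tendsto_toReal ENNReal.one_ne_top).comp h
  rw [ENNReal.toReal_one] at h1
  have h2 : ∀ᶠ r : ℝ in 𝓝[>] 0, 9 / 10 < (volume (C ∩ Metric.closedBall x r) /
      volume (Metric.closedBall x r)).toReal := h1.eventually (lt_mem_nhds (by norm_num))
  filter_upwards [h2, self_mem_nhdsWithin] with r hr hr0
  have hr1 : (0:ℝ) < r := hr0
  rw [ENNReal.toReal_div] at hr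
  have h3 : (volume (Metric.closedBall x r)).toReal = Real.pi * r ^ 2 := vol_ball x hr1.le
  have h4 : 0 < Real.pi * r ^ 2 := mul_pos Real.pi_pos (pow_pos hr1 2)
  rw [h3, lt_div_iff₀ h4] at hr
  exact hr

theorem vol_shift (C : Set ℂ) (u x : ℂ) (r : ℝ) :
    volume.real ({z | z + u ∈ C} ∩ Metric.closedBall x r) =
      volume.real (C ∩ Metric.closedBall (x + u) r) := by
  have h : ({z | z + u ∈ C} ∩ Metric.closedBall x r) =
      (fun z => z + u) ⁻¹' (C ∩ Metric.closedBall (x + u) r) := by
    ext z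
    simp [Metric.mem_closedBall, dist_add_right]
  rw [Measure.real, Measure.real, h, measure_preimage_add_right]

theorem key {C : Set ℂ} (hC : MeasurableSet C) {x y : ℂ} (hx : Dens C x) (hy : Dens C y) :
    ∃ ε > 0, ∀ u : ℂ, ‖u - (y - x)‖ < ε → volume {z | z ∈ C ∧ z + u ∈ C} ≠ 0 := by
  have hy' : ∀ᶠ r : ℝ in 𝓝[>] 0, 9 / 10 * (Real.pi * (11 / 10 * r) ^ 2) <
      volume.real (C ∩ Metric.closedBall y (11 / 10 * r)) := by
    have h1 : Tendsto (fun r : ℝ => 11 / 10 * r) (𝓝[>] 0) (𝓝[>] 0) := by
      apply tendsto_nhdsWithin_of_tendsto_nhds_of_eventually_within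
      · have h2 : Tendsto (fun r : ℝ => 11 / 10 * r) (𝓝 0) (𝓝 (11 / 10 * 0)) :=
          (continuous_const.mul continuous_id).tendsto 0
        rw [mul_zero] at h2
        exact h2.mono_left nhdsWithin_le_nhds
      · filter_upwards [self_mem_nhdsWithin] with r hr
        have hr1 : (0:ℝ) < r := hr
        exact mul_pos (by norm_num) hr1
    exact h1.eventually hy.eventually
  obtain ⟨r, ⟨h1, h2⟩, hr0⟩ := ((hx.eventually.and hy').and self_mem_nhdsWithin).exists
  have hr : (0:ℝ) < r := hr0
  refine ⟨r / 10, by positivity, ?_⟩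
  intro u hu h0
  set P := C ∩ Metric.closedBall x r with hP
  set Q := {z | z + u ∈ C} ∩ Metric.closedBall x r with hQ
  have hQm : MeasurableSet Q :=
    (hC.preimage (measurable_id.add_const u)).inter Metric.isClosed_closedBall.measurableSet
  have hPm : MeasurableSet P := hC.inter Metric.isClosed_closedBall.measurableSet
  have hPQ : volume.real (P ∩ Q) = 0 := by
    rw [Measure.real, measure_mono_null _ h0, ENNReal.toReal_zero]
    rintro z ⟨hz1, hz2⟩
    exact ⟨hz1.1, hz2.1⟩
  have hPf : volume P ≠ ⊤ := ne_top_of_le_ne_top (fin_ball x r) (measure_mono Set.inter_subset_right)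
  have hQf : volume Q ≠ ⊤ := ne_top_of_le_ne_top (fin_ball x r) (measure_mono Set.inter_subset_right)
  have hsum : volume.real (P ∪ Q) + volume.real (P ∩ Q) = volume.real P + volume.real Q :=
    measureReal_union_add_inter hQm hPf hQf
  have hle : volume.real (P ∪ Q) ≤ Real.pi * r ^ 2 := by
    rw [← vol_ball x hr.le]
    exact measureReal_mono (Set.union_subset Set.inter_subset_right Set.inter_subset_right)
      (fin_ball x r)
  have hQv : volume.real Q = volume.real (C ∩ Metric.closedBall (x + u) r) := vol_shift C u x r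
  have hsub : Metric.closedBall (x + u) r ⊆ Metric.closedBall y (11 / 10 * r) := by
    apply Metric.closedBall_subset_closedBall'
    have h3 : dist (x + u) y ≤ r / 10 := by
      rw [dist_eq_norm]
      have h4 : x + u - y = u - (y - x) := by ring
      rw [h4]
      exact hu.le
    linarith
  have hb : volume.real (Metric.closedBall (x + u) r) ≤
      volume.real (C ∩ Metric.closedBall (x + u) r) +
        volume.real (Metric.closedBall y (11 / 10 * r) \ C) := by
    have h5 : Metric.closedBall (x + u) r ⊆ (C ∩ Metric.closedBall (x + u) r) ∪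
        (Metric.closedBall y (11 / 10 * r) \ C) := by
      intro z hz
      by_cases hzC : z ∈ C
      · exact Or.inl ⟨hzC, hz⟩
      · exact Or.inr ⟨hsub hz, hzC⟩
    have h6 : volume ((C ∩ Metric.closedBall (x + u) r) ∪
        (Metric.closedBall y (11 / 10 * r) \ C)) ≠ ⊤ :=
      ne_top_of_le_ne_top (fin_ball y (11 / 10 * r)) (measure_mono (Set.union_subset
        (Set.inter_subset_right.trans hsub) Set.diff_subset))
    exact (measureReal_mono h5 h6).trans (measureReal_union_le _ _)
  have hc : volume.real (C ∩ Metric.closedBall y (11 / 10 * r)) +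
      volume.real (Metric.closedBall y (11 / 10 * r) \ C) =
        volume.real (Metric.closedBall y (11 / 10 * r)) := by
    rw [Set.inter_comm]
    exact measureReal_inter_add_diff hC (fin_ball y _)
  rw [vol_ball _ hr.le] at hb
  rw [vol_ball _ (by positivity)] at hc
  have hpi : 0 < Real.pi * r ^ 2 := mul_pos Real.pi_pos (pow_pos hr 2)
  have e1 : Real.pi * (11 / 10 * r) ^ 2 = 121 / 100 * (Real.pi * r ^ 2) := by ring
  rw [e1] at h2 hc
  rw [hPQ, hQv] at hsum
  nlinarith

end Partition

open Partition in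
/-- a measurable partition of unity without unit distances (along a dense set of directions) -/
theorem measCol_of_partition {k : ℕ} (D : Set ℂ) (hDc : D.Countable)
    (hD : ∀ u : ℂ, ‖u‖ = 1 → ∀ ε : ℝ, 0 < ε → ∃ v ∈ D, ‖v - u‖ < ε)
    (F : Fin k → ℂ → ℝ) (hF : ∀ i, Measurable (F i))
    (h1 : ∀ᵐ z : ℂ, (∀ i, 0 ≤ F i z) ∧ ∑ i, F i z = 1)
    (h2 : ∀ i, ∀ u ∈ D, ∀ᵐ z : ℂ, F i z * F i (z + u) = 0) :
    ∃ A : Fin k → Set ℂ, MeasCol A := by
  set C : Fin k → Set ℂ := fun i => {z | 0 < F i z ∧ ∀ j < i, ¬ 0 < F j z} with hCdef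
  have hCm : ∀ i, MeasurableSet (C i) := by
    intro i
    have e : C i = {z | 0 < F i z} ∩ ⋂ j : Fin k, ⋂ _ : j < i, {z | 0 < F j z}ᶜ := by
      ext z
      simp [hCdef]
    rw [e]
    have hpos : ∀ j, MeasurableSet {z | 0 < F j z} := fun j =>
      measurableSet_lt measurable_const (hF j)
    exact (hpos i).inter (MeasurableSet.iInter fun j => MeasurableSet.iInter fun _ =>
      (hpos j).compl)
  have hCd : ∀ i j, i ≠ j → Disjoint (C i) (C j) := by
    intro i j hij
    rw [Set.disjoint_left]
    intro z hz1 hz2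
    rcases lt_or_gt_of_ne hij with h | h
    · exact hz2.2 i h hz1.1
    · exact hz1.2 j h hz2.1
  have hCc : volume (⋃ i, C i)ᶜ = 0 := by
    refine measure_mono_null ?_ (ae_iff.1 h1)
    intro z hz hz2
    apply hz
    have h3 : ∃ i, 0 < F i z := by
      by_contra hcon
      push Not at hcon
      have h4 : ∑ i, F i z ≤ 0 := Finset.sum_nonpos fun i _ => hcon i
      linarith [hz2.2]
    have h5 : ∃ i, 0 < F i z ∧ ∀ j < i, ¬ 0 < F j z := by
      obtain ⟨i, hi, hmin⟩ := (wellFounded_lt (α := Fin k)).has_min {i | 0 < F i z} h3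
      exact ⟨i, hi, fun j hj hpos => hmin j hpos hj⟩
    obtain ⟨i, hi⟩ := h5
    exact Set.mem_iUnion.2 ⟨i, hi⟩
  set bad : Fin k → Set ℂ := fun i => {z | ¬ Dens (C i) z} ∩ C i with hbad
  have hbad0 : ∀ i, volume (bad i) = 0 := by
    intro i
    have h3 := Besicovitch.ae_tendsto_measure_inter_div (volume : Measure ℂ) (C i)
    have h4 := ae_iff.1 h3
    rw [Measure.restrict_apply' (hCm i)] at h4
    exact h4
  refine ⟨fun i => C i \ toMeasurable volume (bad i), ?_, ?_, ?_, ?_⟩
  · intro i
    exact (hCm i).diff (measurableSet_toMeasurable _ _)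
  · intro i j hij
    exact (hCd i j hij).mono Set.diff_subset Set.diff_subset
  · have h3 : (⋃ i, C i \ toMeasurable volume (bad i))ᶜ ⊆
        (⋃ i, C i)ᶜ ∪ ⋃ i, toMeasurable volume (bad i) := by
      intro z hz
      by_cases hz2 : z ∈ ⋃ i, C i
      · right
        obtain ⟨i, hi⟩ := Set.mem_iUnion.1 hz2
        rw [Set.mem_iUnion]
        by_contra hcon
        push Not at hcon
        exact hz (Set.mem_iUnion.2 ⟨i, hi, hcon i⟩)
      · exact Or.inl hz2
    refine measure_mono_null h3 (measure_union_null hCc (measure_iUnion_null fun i => ?_))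
    rw [measure_toMeasurable]
    exact hbad0 i
  · intro i x hx y hy hxy
    have hdens : ∀ z ∈ C i \ toMeasurable volume (bad i), Dens (C i) z := by
      intro z hz
      by_contra hcon
      exact hz.2 (subset_toMeasurable _ _ ⟨hcon, hz.1⟩)
    obtain ⟨ε, hε, hkey⟩ := key (hCm i) (hdens x hx) (hdens y hy)
    have h3 : ‖y - x‖ = 1 := by
      rw [← dist_eq_norm, dist_comm]
      exact hxy
    obtain ⟨u, hu, hu2⟩ := hD (y - x) h3 ε hε
    apply hkey u hu2
    refine measure_mono_null ?_ (ae_iff.1 (h2 i u hu))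
    intro z hz hz2
    have h4 : 0 < F i z * F i (z + u) := mul_pos hz.1.1 hz.2.1
    exact h4.ne' hz2

end Pool.Agent.MP8b8716R
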