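import Pool.Agent.Lib.MP_8b8716_co_RIG.TDefs
import Pool.Agent.Lib.MP_8b8716_co.Mean

/-!
# The plane over the constructible numbers: the invariant random proper colouring
-/

set_option autoImplicit false

noncomputable section

namespace Pool.Agent.MP8b8716R

open MeasureTheory Filter Topology
open Pool.Agent.MP8b8716 (unitDistanceGraph)

namespace RandCol

/-- the group of the unit vectors -/
def U (K : Subfield ℝ) : Subgroup (EE K)ˣ where
  carrier := {u | ‖((u : EE K) : ℂ)‖ = 1}
  mul_mem' := by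
    intro a b ha hb
    have ha' : ‖((a : EE K) : ℂ)‖ = 1 := ha
    have hb' : ‖((b : EE K) : ℂ)‖ = 1 := hb
    show ‖(((a * b : (EE K)ˣ) : EE K) : ℂ)‖ = 1
    rw [Units.val_mul, Subfield.coe_mul, norm_mul, ha', hb', one_mul]
  one_mem' := by
    show ‖(((1 : (EE K)ˣ) : EE K) : ℂ)‖ = 1
    rw [Units.val_one, Subfield.coe_one, norm_one]
  inv_mem' := by
    intro a ha
    have ha' : ‖((a : EE K) : ℂ)‖ = 1 := ha
    show ‖(((a⁻¹ : (EE K)ˣ) : EE K) : ℂ)‖ = 1
    have h1 : ‖(((a * a⁻¹ : (EE K)ˣ) : EE K) : ℂ)‖ = 1 := by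
      rw [mul_inv_cancel, Units.val_one, Subfield.coe_one, norm_one]
    rw [Units.val_mul, Subfield.coe_mul, norm_mul, ha', one_mul] at h1
    exact h1

/-- the underlying number -/
def cv {K : Subfield ℝ} (c : Additive (U K)) : EE K := ((Additive.toMul c : U K) : (EE K)ˣ)

theorem norm_cv {K : Subfield ℝ} (c : Additive (U K)) : ‖((cv c : EE K) : ℂ)‖ = 1 :=
  (Additive.toMul c).2

theorem cv_add {K : Subfield ℝ} (c d : Additive (U K)) : cv (c + d) = cv c * cv d := rfl

theorem exists_cv {K : Subfield ℝ} (d : EE K) (hd : ‖(d : ℂ)‖ = 1) :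
    ∃ d' : Additive (U K), cv d' = d := by
  have h0 : d ≠ 0 := by
    intro h
    rw [h, Subfield.coe_zero, norm_zero] at hd
    exact zero_ne_one hd
  exact ⟨Additive.ofMul ⟨Units.mk0 d h0, hd⟩, rfl⟩

/-- the invariant functional -/
theorem exists_functional {K : Subfield ℝ} {k : ℕ} (col : EE K → Fin k) :
    ∃ L : (Col K k → ℝ) → ℝ,
      (∀ F G : Col K k → ℝ, (∃ C : ℝ, ∀ ω, |F ω| ≤ C) → (∃ C : ℝ, ∀ ω, |G ω| ≤ C) →
        L (fun ω => F ω + G ω) = L F + L G) ∧
      (∀ (F : Col K k → ℝ) (C : ℝ), (∀ z c : EE K, ‖(c : ℂ)‖ = 1 →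
        |F (fun w => col (z + c * w))| ≤ C) → |L F| ≤ C) ∧
      (∀ r : ℝ, L (fun _ => r) = r) ∧
      (∀ F : Col K k → ℝ, (∃ C : ℝ, ∀ ω, |F ω| ≤ C) → ∀ a : EE K,
        L (fun ω => F (shift a ω)) = L F) ∧
      (∀ F : Col K k → ℝ, (∃ C : ℝ, ∀ ω, |F ω| ≤ C) → ∀ d : EE K, ‖(d : ℂ)‖ = 1 →
        L (fun ω => F (rot d ω)) = L F) := by
  obtain ⟨M1, a1, b1, c1, d1⟩ := Pool.Agent.MP8b8716.ME.exists_mean (EE K)
  obtain ⟨M2, a2, b2, c2, d2⟩ := Pool.Agent.MP8b8716.ME.exists_mean (Additive (U K))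
  refine ⟨fun F => M2 (fun c => M1 (fun z => F (fun w => col (z + cv c * w)))),
    ?_, ?_, ?_, ?_, ?_⟩
  · rintro F G ⟨C, hC⟩ ⟨C', hC'⟩
    have e1 : (fun c : Additive (U K) => M1 (fun z => F (fun w => col (z + cv c * w)) +
        G (fun w => col (z + cv c * w)))) =
        fun c => M1 (fun z => F (fun w => col (z + cv c * w))) +
          M1 (fun z => G (fun w => col (z + cv c * w))) := by
      funext c
      exact a1 _ _ ⟨C, fun z => hC _⟩ ⟨C', fun z => hC' _⟩
    simp only
    rw [e1]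
    exact a2 _ _ ⟨C, fun c => b1 _ C fun z => hC _⟩ ⟨C', fun c => b1 _ C' fun z => hC' _⟩
  · intro F C hF
    exact b2 _ C fun c => b1 _ C fun z => hF z (cv c) (norm_cv c)
  · intro r
    simp only [c1, c2]
  · rintro F ⟨C, hC⟩ a
    have e1 : (fun c : Additive (U K) => M1 (fun z => F (shift a
        (fun w => col (z + cv c * w))))) =
        fun c => M1 (fun z => F (fun w => col (z + cv c * w))) := by
      funext c
      rw [← d1 (fun z => F (fun w => col (z + cv c * w))) (cv c * a) ⟨C, fun z => hC _⟩]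
      congr 1
      funext z
      congr 1
      funext w
      show col (z + cv c * (a + w)) = col (z + cv c * a + cv c * w)
      congr 1
      ring
    simp only
    rw [e1]
  · rintro F ⟨C, hC⟩ d hd
    obtain ⟨d', rfl⟩ := exists_cv d hd
    simp only
    rw [← d2 (fun c => M1 (fun z => F (fun w => col (z + cv c * w)))) d'
      ⟨C, fun c => b1 _ C fun z => hC _⟩]
    congr 1
    funext c
    congr 1
    funext z
    congr 1
    funext w
    show col (z + cv c * (cv d' * w)) = col (z + cv (c + d') * w)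
    rw [cv_add]
    congr 1
    ring

/-- the representing measure of a bounded additive functional -/
theorem exists_measure {X : Type*} [TopologicalSpace X] [CompactSpace X] [T2Space X]
    [MeasurableSpace X] [BorelSpace X] (L : (X → ℝ) → ℝ)
    (hadd : ∀ F G : X → ℝ, (∃ C : ℝ, ∀ ω, |F ω| ≤ C) → (∃ C : ℝ, ∀ ω, |G ω| ≤ C) →
        L (fun ω => F ω + G ω) = L F + L G)
    (hbd : ∀ (F : X → ℝ) (C : ℝ), (∀ ω, |F ω| ≤ C) → |L F| ≤ C)
    (hconst : ∀ r : ℝ, L (fun _ => r) = r) :
    ∃ μ : Measure X, IsProbabilityMeasure μ ∧ ∀ f : C(X, ℝ), ∫ ω, f ω ∂μ = L f := by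
  have hb : ∀ f : C(X, ℝ), ∀ ω, |f ω| ≤ ‖f‖ := fun f ω => f.norm_coe_le_norm ω
  let T : C(X, ℝ) →+ ℝ :=
    { toFun := fun f => L f
      map_zero' := by
        have h1 := hconst 0
        exact h1
      map_add' := fun f g => hadd f g ⟨‖f‖, hb f⟩ ⟨‖g‖, hb g⟩ }
  have hT : Continuous T := by
    apply AddMonoidHomClass.continuous_of_bound T 1
    intro f
    rw [one_mul]
    exact hbd f ‖f‖ (hb f)
  let T' : C(X, ℝ) →L[ℝ] ℝ := T.toRealLinearMap hT
  have hT' : ∀ f : C(X, ℝ), T' f = L f := fun f => rfl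
  have hpos : ∀ f : C(X, ℝ), (∀ ω, 0 ≤ f ω) → 0 ≤ T' f := by
    intro f hf
    have h1 : L f = L (fun _ => ‖f‖ / 2) + L (fun ω => f ω - ‖f‖ / 2) := by
      rw [← hadd _ _ ⟨|‖f‖ / 2|, fun _ => le_rfl⟩ ⟨‖f‖ + |‖f‖ / 2|, fun ω => by
        refine (abs_sub _ _).trans ?_
        linarith [hb f ω]⟩]
      congr 1
      funext ω
      ring
    have h2 : |L (fun ω => f ω - ‖f‖ / 2)| ≤ ‖f‖ / 2 := by
      apply hbd
      intro ω
      have h3 := hb f ω
      have h4 := hf ω
      rw [abs_le]
      have h5 := le_abs_self (f ω)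
      constructor <;> linarith
    rw [hconst] at h1
    rw [hT', h1]
    have h6 := neg_abs_le (L (fun ω => f ω - ‖f‖ / 2))
    linarith
  let Λ : CompactlySupportedContinuousMap X ℝ →ₚ[ℝ] ℝ :=
    { toFun := fun g => T' g.toContinuousMap
      map_add' := fun g g' => T'.map_add g.toContinuousMap g'.toContinuousMap
      map_smul' := fun c g => T'.map_smul c g.toContinuousMap
      monotone' := by
        intro g g' hgg'
        have h1 : 0 ≤ T' (g'.toContinuousMap - g.toContinuousMap) := by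
          apply hpos
          intro ω
          have h2 : g ω ≤ g' ω := hgg' ω
          show 0 ≤ g' ω - g ω
          linarith
        rw [T'.map_sub] at h1
        show T' g.toContinuousMap ≤ T' g'.toContinuousMap
        linarith }
  have hΛ : ∀ f : C(X, ℝ), ∫ ω, f ω ∂(RealRMK.rieszMeasure Λ) = L f := by
    intro f
    have h1 := RealRMK.integral_rieszMeasure Λ
      ⟨f, HasCompactSupport.of_compactSpace _⟩
    exact h1
  have hfin : RealRMK.rieszMeasure Λ Set.univ < ⊤ := by
    have h1 := RealRMK.rieszMeasure_le_of_eq_one Λ (f := ⟨1, HasCompactSupport.of_compactSpace _⟩)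
      (fun x => by
        show (0 : ℝ) ≤ 1
        exact zero_le_one) isCompact_univ (fun x _ => rfl)
    exact lt_of_le_of_lt h1 ENNReal.ofReal_lt_top
  have hfin' : IsFiniteMeasure (RealRMK.rieszMeasure Λ) := ⟨hfin⟩
  refine ⟨RealRMK.rieszMeasure Λ, ⟨?_⟩, hΛ⟩
  have h2 := hΛ 1
  have h3 : L ((1 : C(X, ℝ)) : X → ℝ) = 1 := hconst 1
  rw [h3] at h2
  have h4 : ∫ ω, (1 : C(X, ℝ)) ω ∂(RealRMK.rieszMeasure Λ) =
      (RealRMK.rieszMeasure Λ).real Set.univ := by
    simp
  rw [h4] at h2
  rw [Measure.real, ENNReal.toReal_eq_one_iff] at h2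
  exact h2

theorem continuous_shift {K : Subfield ℝ} {k : ℕ} (a : EE K) :
    Continuous (shift a : Col K k → Col K k) :=
  continuous_pi fun w => continuous_apply (a + w)

theorem continuous_rot {K : Subfield ℝ} {k : ℕ} (c : EE K) :
    Continuous (rot c : Col K k → Col K k) :=
  continuous_pi fun w => continuous_apply (c * w)

end RandCol

section TA

theorem exists_randCol {K : Subfield ℝ} [Countable (EE K)] {k : ℕ} (h : (gE K).Colorable k) :
    ∃ μ : Measure (Col K k), IsRC μ := by
  obtain ⟨col⟩ := h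
  obtain ⟨L, hadd, hbd, hconst, hshift, hrot⟩ := RandCol.exists_functional (col : EE K → Fin k)
  obtain ⟨μ, hμ, hint⟩ := RandCol.exists_measure L hadd
    (fun F C hF => hbd F C fun z c _ => hF _) hconst
  have hbF : ∀ f : C(Col K k, ℝ), ∃ C : ℝ, ∀ ω, |f ω| ≤ C :=
    fun f => ⟨‖f‖, fun ω => f.norm_coe_le_norm ω⟩
  have hinv : ∀ s : Col K k → Col K k, Continuous s →
      (∀ F : Col K k → ℝ, (∃ C : ℝ, ∀ ω, |F ω| ≤ C) → L (fun ω => F (s ω)) = L F) →
      μ.map s = μ := by
    intro s hs hL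
    have hm : IsProbabilityMeasure (μ.map s) :=
      Measure.isProbabilityMeasure_map hs.measurable.aemeasurable
    apply ext_of_forall_integral_eq_of_IsFiniteMeasure
    intro f
    rw [integral_map hs.measurable.aemeasurable f.continuous.aestronglyMeasurable]
    have h1 := hint ⟨fun ω => f (s ω), f.continuous.comp hs⟩
    have h2 := hint ⟨f, f.continuous⟩
    have h3 := hL (fun ω => f ω) (hbF ⟨f, f.continuous⟩)
    exact h1.trans (h3.trans h2.symm)
  refine ⟨μ, hμ, fun a => ?_, fun c hc => ?_, fun z w hzw => ?_⟩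
  · exact hinv _ (RandCol.continuous_shift a) fun F hF => hshift F hF a
  · exact hinv _ (RandCol.continuous_rot c) fun F hF => hrot F hF c hc
  · -- the two colours are different
    have hclopen : IsClopen {ω : Col K k | ω z = ω w} := by
      have h1 : Continuous (fun ω : Col K k => (ω z, ω w)) :=
        (continuous_apply z).prodMk (continuous_apply w)
      exact (isClopen_discrete {p : Fin k × Fin k | p.1 = p.2}).preimage h1
    let f : C(Col K k, ℝ) := ⟨Set.indicator {ω : Col K k | ω z = ω w} (fun _ => (1 : ℝ)),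
      hclopen.continuous_indicator continuous_const⟩
    have hLf : L f = 0 := by
      have h2 : |L f| ≤ 0 := by
        apply hbd
        intro a c hc
        have h3 : (fun v => col (a + c * v)) ∉ {ω : Col K k | ω z = ω w} := by
          intro h4
          have h5 : (col : EE K → Fin k) (a + c * z) = col (a + c * w) := h4
          have h6 : (gE K).Adj (a + c * z) (a + c * w) := by
            show ‖((a + c * z : EE K) : ℂ) - ((a + c * w : EE K) : ℂ)‖ = 1
            have h7 : ((a + c * z : EE K) : ℂ) - ((a + c * w : EE K) : ℂ) =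
                (c : ℂ) * ((z : ℂ) - w) := by
              push_cast
              ring
            rw [h7, norm_mul, hc, hzw, one_mul]
          exact col.valid h6 h5
        show |Set.indicator {ω : Col K k | ω z = ω w} (fun _ => (1 : ℝ)) _| ≤ 0
        rw [Set.indicator_of_notMem h3, abs_zero]
      exact abs_nonpos_iff.1 h2
    have h8 := hint f
    rw [hLf] at h8
    have h9 : ∫ ω, f ω ∂μ = μ.real {ω : Col K k | ω z = ω w} :=
      integral_indicator_one hclopen.isClosed.measurableSet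
    rw [h9] at h8
    have h10 : μ {ω : Col K k | ω z = ω w} = 0 :=
      (measureReal_eq_zero_iff (measure_ne_top μ _)).1 h8
    exact measure_eq_zero_iff_ae_notMem.1 h10

end TA

end Pool.Agent.MP8b8716R
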