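import Mathlib
import Pool.Agent.Lib.MP_8b8716_co_RIG.TDefs

/-!
# Project RIG, module BD: a measure on the characters is determined by its Fourier coefficients
-/

set_option autoImplicit false

noncomputable section

namespace Pool.Agent.MP8b8716R

open MeasureTheory Filter Topology
open Pool.Agent.MP8b8716 (unitDistanceGraph)

namespace UniqueBD

variable {E : Type} [AddCommGroup E]

/-- additive functions with values in the circle -/
def Ad (y : E → Circle) : Prop := ∀ a b : E, y (a + b) = y a * y b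

lemma Ad.zero {y : E → Circle} (h : Ad y) : y 0 = 1 := by
  have h1 := h 0 0
  rw [add_zero] at h1
  exact (mul_eq_left.1 h1.symm)

lemma Ad.neg {y : E → Circle} (h : Ad y) (a : E) : y (-a) = (y a)⁻¹ := by
  have h1 := h a (-a)
  rw [add_neg_cancel, h.zero] at h1
  exact (inv_eq_of_mul_eq_one_right h1.symm).symm

/-- `φ` agrees on the additive functions with a trigonometric polynomial -/
def Tr (φ : C(E → Circle, ℂ)) : Prop := ∃ (ι : Type) (_ : Fintype ι) (u : ι → E) (c : ι → ℂ),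
  ∀ y : E → Circle, Ad y → φ y = ∑ i, c i * (y (u i) : ℂ)

lemma Tr.add {φ ψ : C(E → Circle, ℂ)} (h : Tr φ) (h' : Tr ψ) : Tr (φ + ψ) := by
  obtain ⟨ι, _, u, c, h⟩ := h
  obtain ⟨κ, _, v, d, h'⟩ := h'
  refine ⟨ι ⊕ κ, inferInstance, Sum.elim u v, Sum.elim c d, fun y hy => ?_⟩
  rw [Fintype.sum_sum_type]
  simp only [Sum.elim_inl, Sum.elim_inr]
  rw [ContinuousMap.add_apply, h y hy, h' y hy]

lemma Tr.mul {φ ψ : C(E → Circle, ℂ)} (h : Tr φ) (h' : Tr ψ) : Tr (φ * ψ) := by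
  obtain ⟨ι, _, u, c, h⟩ := h
  obtain ⟨κ, _, v, d, h'⟩ := h'
  refine ⟨ι × κ, inferInstance, fun p => u p.1 + v p.2, fun p => c p.1 * d p.2, fun y hy => ?_⟩
  rw [ContinuousMap.mul_apply, h y hy, h' y hy, Finset.sum_mul_sum, Fintype.sum_prod_type]
  refine Finset.sum_congr rfl fun i _ => Finset.sum_congr rfl fun j _ => ?_
  rw [hy (u i) (v j), Circle.coe_mul]
  ring

lemma Tr.star {φ : C(E → Circle, ℂ)} (h : Tr φ) : Tr (star φ) := by
  obtain ⟨ι, _, u, c, h⟩ := h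
  refine ⟨ι, inferInstance, fun i => -u i, fun i => (starRingEnd ℂ) (c i), fun y hy => ?_⟩
  rw [ContinuousMap.star_apply, h y hy]
  change (starRingEnd ℂ) _ = _
  rw [map_sum]
  refine Finset.sum_congr rfl fun i _ => ?_
  rw [map_mul, hy.neg, Circle.coe_inv_eq_conj]

lemma Tr.const (c : ℂ) : Tr (algebraMap ℂ C(E → Circle, ℂ) c) := by
  refine ⟨Unit, inferInstance, fun _ => 0, fun _ => c, fun y hy => ?_⟩
  simp only [hy.zero]
  simp

/-- the coordinate `u` -/
def co (u : E) : C(E → Circle, ℂ) :=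
  ⟨fun y => (y u : ℂ), by fun_prop⟩

lemma Tr.co (u : E) : Tr (co u) := by
  refine ⟨Unit, inferInstance, fun _ => u, fun _ => 1, fun y hy => ?_⟩
  simp [UniqueBD.co]

omit [AddCommGroup E] in
lemma separates : (StarAlgebra.adjoin ℂ (Set.range (co : E → C(E → Circle, ℂ)))).SeparatesPoints := by
  intro y y' hne
  obtain ⟨u, hu⟩ := Function.ne_iff.1 hne
  refine ⟨_, ⟨co u, StarAlgebra.subset_adjoin ℂ _ ⟨u, rfl⟩, rfl⟩, ?_⟩
  intro h
  exact hu (Circle.coe_injective h)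

lemma dense (φ : C(E → Circle, ℂ)) {ε : ℝ} (hε : 0 < ε) : ∃ ψ : C(E → Circle, ℂ), Tr ψ ∧
    ‖φ - ψ‖ < ε := by
  have h := ContinuousMap.starSubalgebra_topologicalClosure_eq_top_of_separatesPoints
    (StarAlgebra.adjoin ℂ (Set.range (co : E → C(E → Circle, ℂ)))) separates
  have h1 : φ ∈ (StarAlgebra.adjoin ℂ (Set.range (co : E → C(E → Circle, ℂ)))).topologicalClosure := by
    rw [h]
    exact StarSubalgebra.mem_top
  have h2 : φ ∈ closure ((StarAlgebra.adjoin ℂ (Set.range (co : E → C(E → Circle, ℂ)))) :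
    Set C(E → Circle, ℂ)) := h1
  obtain ⟨ψ, hψ, hd⟩ := Metric.mem_closure_iff.1 h2 ε hε
  refine ⟨ψ, ?_, by rwa [dist_eq_norm] at hd⟩
  refine StarAlgebra.adjoin_induction (p := fun x _ => Tr x) ?_ ?_ ?_ ?_ ?_ hψ
  · rintro _ ⟨u, rfl⟩
    exact Tr.co u
  · exact fun r => Tr.const r
  · exact fun _ _ _ _ h h' => h.add h'
  · exact fun _ _ _ _ h h' => h.mul h'
  · exact fun _ _ h => h.star

section
variable [Countable E]

omit [AddCommGroup E] in
lemma integrable_cont (s : Measure (E → Circle)) [IsFiniteMeasure s] (φ : C(E → Circle, ℂ)) :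
    Integrable (fun y => φ y) s := by
  refine Integrable.of_bound φ.continuous.aestronglyMeasurable ‖φ‖ ?_
  exact Eventually.of_forall fun y => φ.norm_coe_le_norm y

lemma integral_Tr {s t : Measure (E → Circle)} [IsFiniteMeasure s] [IsFiniteMeasure t]
    (hsa : ∀ᵐ y ∂s, Ad y) (hta : ∀ᵐ y ∂t, Ad y)
    (h : ∀ u : E, ∫ y, ((y u : Circle) : ℂ) ∂s = ∫ y, ((y u : Circle) : ℂ) ∂t)
    {φ : C(E → Circle, ℂ)} (hφ : Tr φ) : ∫ y, φ y ∂s = ∫ y, φ y ∂t := by
  obtain ⟨ι, _, u, c, hc⟩ := hφ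
  have key : ∀ (r : Measure (E → Circle)) [IsFiniteMeasure r], (∀ᵐ y ∂r, Ad y) →
      ∫ y, φ y ∂r = ∑ i, c i * ∫ y, ((y (u i) : Circle) : ℂ) ∂r := by
    intro r _ hr
    have h1 : ∫ y, φ y ∂r = ∫ y, ∑ i, c i * ((y (u i) : Circle) : ℂ) ∂r :=
      integral_congr_ae (hr.mono fun y hy => hc y hy)
    rw [h1, integral_finsetSum]
    · refine Finset.sum_congr rfl fun i _ => ?_
      rw [integral_const_mul]
    · intro i _
      exact (integrable_cont r (co (u i))).const_mul (c i)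
  rw [key s hsa, key t hta]
  refine Finset.sum_congr rfl fun i _ => ?_
  rw [h]

lemma integral_eq {s t : Measure (E → Circle)} [IsFiniteMeasure s] [IsFiniteMeasure t]
    (hsa : ∀ᵐ y ∂s, Ad y) (hta : ∀ᵐ y ∂t, Ad y)
    (h : ∀ u : E, ∫ y, ((y u : Circle) : ℂ) ∂s = ∫ y, ((y u : Circle) : ℂ) ∂t)
    (φ : C(E → Circle, ℂ)) : ∫ y, φ y ∂s = ∫ y, φ y ∂t := by
  have key : ∀ (r : Measure (E → Circle)) [IsFiniteMeasure r] (ψ : C(E → Circle, ℂ)),
      ‖∫ y, φ y ∂r - ∫ y, ψ y ∂r‖ ≤ ‖φ - ψ‖ * r.real Set.univ := by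
    intro r _ ψ
    rw [← integral_sub (integrable_cont r φ) (integrable_cont r ψ)]
    refine norm_integral_le_of_norm_le_const (Eventually.of_forall fun y => ?_)
    exact (φ - ψ).norm_coe_le_norm y
  rw [← sub_eq_zero, ← norm_eq_zero]
  refine le_antisymm (le_of_forall_pos_le_add fun ε hε => ?_) (norm_nonneg _)
  rw [zero_add]
  set M : ℝ := s.real Set.univ + t.real Set.univ + 1 with hM
  have hs0 : 0 ≤ s.real Set.univ := measureReal_nonneg
  have ht0 : 0 ≤ t.real Set.univ := measureReal_nonneg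
  have hM0 : 0 < M := by positivity
  obtain ⟨ψ, hψ, hd⟩ := dense φ (div_pos hε hM0)
  have h1 := key s ψ
  have h2 := key t ψ
  rw [integral_Tr hsa hta h hψ] at h1
  have h3 : ∫ y, φ y ∂s - ∫ y, φ y ∂t = (∫ y, φ y ∂s - ∫ y, ψ y ∂t) -
      (∫ y, φ y ∂t - ∫ y, ψ y ∂t) := by ring
  rw [h3]
  refine (norm_sub_le _ _).trans ((add_le_add h1 h2).trans ?_)
  rw [← mul_add]
  calc ‖φ - ψ‖ * (s.real Set.univ + t.real Set.univ) ≤ (ε / M) * M := by
        refine mul_le_mul hd.le (by rw [hM]; linarith) (by positivity) (by positivity)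
    _ = ε := by field_simp

end

end UniqueBD

section BD

theorem ext_of_coeff {E : Type} [AddCommGroup E] [Countable E] {s t : Measure (E → Circle)}
    (hs : IsFiniteMeasure s) (ht : IsFiniteMeasure t)
    (hsa : ∀ᵐ y ∂s, ∀ a b : E, y (a + b) = y a * y b)
    (hta : ∀ᵐ y ∂t, ∀ a b : E, y (a + b) = y a * y b)
    (h : ∀ u : E, ∫ y, ((y u : Circle) : ℂ) ∂s = ∫ y, ((y u : Circle) : ℂ) ∂t) : s = t := by
  let _ : PseudoMetricSpace (E → Circle) :=
    TopologicalSpace.pseudoMetrizableSpacePseudoMetric (E → Circle)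
  refine ext_of_forall_integral_eq_of_IsFiniteMeasure fun f => ?_
  have h1 := UniqueBD.integral_eq hsa hta h
    ⟨fun y => ((f y : ℝ) : ℂ), Complex.continuous_ofReal.comp f.continuous⟩
  have h2 : ∀ r : Measure (E → Circle), ∫ y, ((f y : ℝ) : ℂ) ∂r = ((∫ y, f y ∂r : ℝ) : ℂ) :=
    fun r => integral_ofReal
  have h3 : ((∫ y, f y ∂s : ℝ) : ℂ) = ((∫ y, f y ∂t : ℝ) : ℂ) := by
    rw [← h2 s, ← h2 t]
    exact h1
  exact_mod_cast h3

end BD

end Pool.Agent.MP8b8716R
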